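import Pool.Agent.NH46.FW.Cut

set_option autoImplicit false

/-!
# Graphs from merging parts
-/

namespace Pool.Agent.NH46.FW

open Finset

variable {K : Type} [Field K] [LinearOrder K] [IsStrictOrderedRing K]
  {V : Type} [Fintype V] [DecidableEq V]

/-- Two parts can be merged. -/
def Merges (d : Finset V → K) (X Y : Finset V) : Prop :=
  ∃ β p : K, 0 ≤ p ∧ p ≤ 1 ∧ d X = β + p * d (X ∪ Y) ∧ d Y = β + (1 - p) * d (X ∪ Y) ∧
    ∀ S, Disjoint S (X ∪ Y) → d (S ∪ X) ≤ β + p * d (S ∪ X ∪ Y) + (1 - p) * d S

/-- The splits of `A` by the members of `F` are compatible. -/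
def Compat (F : Set (Finset V)) (A : Finset V) : Prop :=
  ∀ S ∈ F, ∀ T ∈ F, A ∩ S ⊆ T ∨ A ∩ T ⊆ S ∨ A ∩ S ∩ T = ∅ ∨ A ⊆ S ∪ T

omit [Fintype V] in
theorem Compat.mono {F : Set (Finset V)} {A A' : Finset V} (h : Compat F A) (hA : A' ⊆ A) :
    Compat F A' := by
  intro S hS T hT
  rcases h S hS T hT with h1 | h1 | h1 | h1
  · exact Or.inl ((inter_subset_inter_right hA).trans h1)
  · exact Or.inr (Or.inl ((inter_subset_inter_right hA).trans h1))
  · refine Or.inr (Or.inr (Or.inl ?_))
    rw [← subset_empty, ← h1]
    exact inter_subset_inter_right (inter_subset_inter_right hA)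
  · exact Or.inr (Or.inr (Or.inr (hA.trans h1)))

omit [Fintype V] in
/-- A pair of marks that is not separated by the members of `F`, except those that cut off at
most one mark. -/
theorem exists_cherry {F : Set (Finset V)} {A : Finset V} (hF : Compat F A) (hA : 2 ≤ A.card) :
    ∃ x ∈ A, ∃ y ∈ A, x ≠ y ∧ ∀ S ∈ F, (A ∩ S).card ≤ 1 ∨ (A \ S).card ≤ 1 ∨ (x ∈ S ↔ y ∈ S) := by
  classical
  set 𝒢 : Finset (Finset V) := A.powerset.filter (fun U => 2 ≤ U.card ∧
    ∃ S ∈ F, 2 ≤ (A ∩ S).card ∧ 2 ≤ (A \ S).card ∧ (U = A ∩ S ∨ U = A \ S)) with h𝒢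
  have mem𝒢 : ∀ T ∈ F, 2 ≤ (A ∩ T).card → 2 ≤ (A \ T).card → A ∩ T ∈ 𝒢 ∧ A \ T ∈ 𝒢 := by
    intro T hT h1 h2
    rw [h𝒢, mem_filter, mem_filter, mem_powerset, mem_powerset]
    exact ⟨⟨inter_subset_left, h1, T, hT, h1, h2, Or.inl rfl⟩,
      ⟨sdiff_subset, h2, T, hT, h1, h2, Or.inr rfl⟩⟩
  by_cases hne : 𝒢.Nonempty
  · obtain ⟨U, hU, hmin⟩ := exists_min_image 𝒢 card hne
    have hU' := hU
    rw [h𝒢, mem_filter, mem_powerset] at hU'
    obtain ⟨hUA, hU2, S, hS, hS1, hS2, hUS⟩ := hU'
    obtain ⟨x, hx, y, hy, hxy⟩ := one_lt_card.1 hU2
    refine ⟨x, hUA hx, y, hUA hy, hxy, fun T hT => ?_⟩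
    by_contra hcon
    rw [not_or, not_or, not_le, not_le] at hcon
    obtain ⟨hT1, hT2, hsep⟩ := hcon
    have hm := mem𝒢 T hT hT1 hT2
    have key1 : ¬ U ⊆ T := fun h => hsep ⟨fun _ => h hy, fun _ => h hx⟩
    have key2 : ¬ U ∩ T = ∅ := by
      intro h
      have : ∀ z ∈ U, z ∉ T := fun z hz hzT => by
        have : z ∈ U ∩ T := mem_inter.2 ⟨hz, hzT⟩
        rw [h] at this
        exact notMem_empty z this
      exact hsep ⟨fun h' => absurd h' (this x hx), fun h' => absurd h' (this y hy)⟩
    have key3 : ¬ A ∩ T ⊆ U := by
      intro h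
      have h1 := eq_of_subset_of_card_le h (hmin _ hm.1)
      apply key1
      rw [← h1]
      exact inter_subset_right
    have key4 : ¬ A \ T ⊆ U := by
      intro h
      have h1 := eq_of_subset_of_card_le h (hmin _ hm.2)
      apply key2
      rw [← h1]
      exact sdiff_inter_self _ _
    rcases hUS with hUS | hUS
    · rcases hF S hS T hT with h1 | h1 | h1 | h1
      · exact key1 (hUS ▸ h1)
      · apply key3
        rw [hUS]
        exact subset_inter inter_subset_left h1
      · exact key2 (hUS ▸ h1)
      · apply key4
        rw [hUS]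
        intro z hz
        rw [mem_sdiff] at hz
        have := h1 hz.1
        rw [mem_union] at this
        exact mem_inter.2 ⟨hz.1, this.resolve_right hz.2⟩
    · rcases hF S hS T hT with h1 | h1 | h1 | h1
      · apply key4
        rw [hUS]
        intro z hz
        rw [mem_sdiff] at hz ⊢
        exact ⟨hz.1, fun h => hz.2 (h1 (mem_inter.2 ⟨hz.1, h⟩))⟩
      · apply key2
        rw [hUS, eq_empty_iff_forall_notMem]
        intro z hz
        rw [mem_inter, mem_sdiff] at hz
        exact hz.1.2 (h1 (mem_inter.2 ⟨hz.1.1, hz.2⟩))
      · apply key3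
        rw [hUS]
        intro z hz
        rw [mem_inter] at hz
        rw [mem_sdiff]
        refine ⟨hz.1, fun h => ?_⟩
        have : z ∈ A ∩ S ∩ T := mem_inter.2 ⟨mem_inter.2 ⟨hz.1, h⟩, hz.2⟩
        rw [h1] at this
        exact notMem_empty z this
      · apply key1
        rw [hUS]
        intro z hz
        rw [mem_sdiff] at hz
        have := h1 hz.1
        rw [mem_union] at this
        exact this.resolve_left hz.2
  · obtain ⟨x, hx, y, hy, hxy⟩ := one_lt_card.1 hA
    refine ⟨x, hx, y, hy, hxy, fun T hT => ?_⟩
    by_contra hcon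
    rw [not_or, not_or, not_le, not_le] at hcon
    exact hne ⟨_, (mem𝒢 T hT hcon.1 hcon.2.1).1⟩

/-- The preimage of a set under the map that sends `y` to `x` and is the identity elsewhere. -/
def rho (x y : V) (S : Finset V) : Finset V := if x ∈ S then insert y S else S.erase y

omit [Fintype V] in
theorem mem_rho {x y : V} {S : Finset V} {z : V} :
    z ∈ rho x y S ↔ (if z = y then x else z) ∈ S := by
  unfold rho
  split_ifs with h1 h2 h2
  · subst h2; simp [h1]
  · simp [h2]
  · subst h2; simp [h1]
  · simp [h2]

omit [Fintype V] in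
theorem rho_union (x y : V) (S T : Finset V) : rho x y (S ∪ T) = rho x y S ∪ rho x y T := by
  ext z
  simp only [mem_union, mem_rho]

theorem rho_compl (x y : V) (S : Finset V) : rho x y Sᶜ = (rho x y S)ᶜ := by
  ext z
  simp only [mem_compl, mem_rho]

omit [Fintype V] in
theorem rho_disjoint (x y : V) {S T : Finset V} (h : Disjoint S T) :
    Disjoint (rho x y S) (rho x y T) := by
  rw [disjoint_left] at h ⊢
  intro z
  rw [mem_rho, mem_rho]
  exact fun h1 => h h1

omit [Fintype V] in
theorem rho_empty (x y : V) : rho x y ∅ = ∅ := by
  ext z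
  simp [mem_rho]

/-- The data of the induction. -/
structure Data (d : Finset V → K) (A : Finset V) : Prop where
  zero : d ∅ = 0
  symm : ∀ S, d Sᶜ = d S
  supp : ∀ S, d S = d (S ∩ A)
  merges : ∀ X Y, Disjoint X Y → Merges d X Y

omit [IsStrictOrderedRing K] in
theorem Data.rho {d : Finset V → K} {A : Finset V} (h : Data d A) {x y : V} (hx : x ∈ A)
    (hxy : x ≠ y) : Data (fun S => d (rho x y S)) (A.erase y) where
  zero := by
    show d (FW.rho x y ∅) = 0
    rw [rho_empty, h.zero]
  symm := fun S => by
    show d (FW.rho x y Sᶜ) = d (FW.rho x y S)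
    rw [rho_compl, h.symm]
  supp := fun S => by
    show d (FW.rho x y S) = d (FW.rho x y (S ∩ A.erase y))
    rw [h.supp, h.supp (FW.rho x y (S ∩ A.erase y))]
    congr 1
    ext z
    rw [mem_inter, mem_inter, mem_rho, mem_rho]
    by_cases hz : z = y
    · rw [if_pos hz, mem_inter]
      have : x ∈ A.erase y := mem_erase.2 ⟨hxy, hx⟩
      tauto
    · rw [if_neg hz, mem_inter, mem_erase]
      tauto
  merges := fun X Y hXY => by
    obtain ⟨β, p, h0, h1, h2, h3, h4⟩ := h.merges _ _ (rho_disjoint x y hXY)
    refine ⟨β, p, h0, h1, ?_, ?_, fun S hS => ?_⟩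
    · show d (FW.rho x y X) = β + p * d (FW.rho x y (X ∪ Y))
      rw [rho_union]; exact h2
    · show d (FW.rho x y Y) = β + (1 - p) * d (FW.rho x y (X ∪ Y))
      rw [rho_union]; exact h3
    · show d (FW.rho x y (S ∪ X)) ≤ β + p * d (FW.rho x y (S ∪ X ∪ Y)) +
        (1 - p) * d (FW.rho x y S)
      rw [rho_union, rho_union, rho_union]
      apply h4
      rw [← rho_union]
      exact rho_disjoint x y hS

/-- The other inequality for parts that can be merged. -/
theorem merges_other {d : Finset V → K} (hs : ∀ S, d Sᶜ = d S) {X Y : Finset V}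
    (hXY : Disjoint X Y) {β p : K}
    (h : ∀ S, Disjoint S (X ∪ Y) → d (S ∪ X) ≤ β + p * d (S ∪ X ∪ Y) + (1 - p) * d S)
    (S : Finset V) (hS : Disjoint S (X ∪ Y)) :
    d (S ∪ Y) ≤ β + (1 - p) * d (S ∪ X ∪ Y) + p * d S := by
  have h1 := h (S ∪ X ∪ Y)ᶜ (by
    rw [disjoint_left]
    intro z hz hz'
    rw [mem_compl, union_assoc, mem_union, not_or] at hz
    exact hz.2 hz')
  rw [disjoint_left] at hS hXY
  have e1 : (S ∪ X ∪ Y)ᶜ ∪ X = (S ∪ Y)ᶜ := by
    ext z
    have a1 := @hS z
    have a2 := @hXY z
    simp only [mem_union, mem_compl] at a1 a2 ⊢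
    tauto
  have e2 : (S ∪ X ∪ Y)ᶜ ∪ X ∪ Y = Sᶜ := by
    ext z
    have a1 := @hS z
    have a2 := @hXY z
    simp only [mem_union, mem_compl] at a1 a2 ⊢
    tauto
  rw [e2, e1, hs, hs, hs] at h1
  linarith

/-- The graph. -/
theorem exists_graph : ∀ (k : ℕ) (d : Finset V → K) (A : Finset V) (F : Set (Finset V)),
    A.card ≤ k → Data d A → Compat F A →
    ∃ G : V → V → K, (∀ i j, G i j = G j i) ∧ (∀ i, i ∉ A → ∀ j, G i j = 0) ∧
      (∀ i, cut G {i} = d {i}) ∧ (∀ S, d S ≤ cut G S) ∧ ∀ S ∈ F, cut G S = d S := by
  intro k
  induction k with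
  | zero =>
    intro d A F hk hd hF
    have hA : A = ∅ := card_eq_zero.1 (Nat.le_zero.1 hk)
    have h0 : ∀ S, d S = 0 := by
      intro S
      rw [hd.supp, hA, inter_empty, hd.zero]
    refine ⟨fun _ _ => 0, fun _ _ => rfl, fun _ _ _ => rfl, fun i => ?_, fun S => ?_, fun S _ => ?_⟩
    · rw [cut_zero, h0]
    · rw [cut_zero, h0]
    · rw [cut_zero, h0]
  | succ k ih =>
    intro d A F hk hd hF
    by_cases hA : A.card ≤ 1
    · have h0 : ∀ S, d S = 0 := by
        intro S
        rw [hd.supp]
        by_cases h : S ∩ A = ∅
        · rw [h, hd.zero]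
        · obtain ⟨z, hz⟩ := nonempty_iff_ne_empty.2 h
          have e1 : S ∩ A = A := eq_of_subset_of_card_le inter_subset_right
            (hA.trans (card_pos.2 ⟨z, hz⟩))
          have e2 : Aᶜ ∩ A = ∅ := by
            rw [inter_comm]
            exact inter_compl A
          rw [e1, ← hd.symm, hd.supp, e2, hd.zero]
      refine ⟨fun _ _ => 0, fun _ _ => rfl, fun _ _ _ => rfl, fun i => ?_, fun S => ?_,
        fun S _ => ?_⟩
      · rw [cut_zero, h0]
      · rw [cut_zero, h0]
      · rw [cut_zero, h0]
    · rw [not_le] at hA
      obtain ⟨x, hx, y, hy, hxy, hsep⟩ := exists_cherry hF hA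
      obtain ⟨G', g1, g2, g3, g4, g5⟩ := ih (fun S => d (rho x y S)) (A.erase y) F
        (by rw [card_erase_of_mem hy]; omega) (hd.rho hx hxy) (hF.mono (erase_subset y A))
      obtain ⟨β, p, p0, p1, b1, b2, b3⟩ := hd.merges {x} {y} (disjoint_singleton.2 hxy)
      have b4 := merges_other hd.symm (disjoint_singleton.2 hxy) b3
      set σ : Equiv.Perm V := Equiv.swap x y with hσ
      set G : V → V → K := fun i j => (p * G' i j + (1 - p) * G' (σ i) (σ j)) + β * edge x y i j
        with hG
      have cutG : ∀ S, cut G S = p * cut G' S + (1 - p) * cut G' (S.map σ.toEmbedding)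
          + β * (if (x ∈ S ↔ y ∈ S) then 0 else 1) := by
        intro S
        rw [hG, cut_add, cut_add, cut_mul, cut_mul, cut_mul, cut_edge hxy,
          cut_perm σ G' S]
      have symG : ∀ i j, G i j = G j i := by
        intro i j
        simp only [hG]
        rw [g1 i j, g1 (σ i) (σ j), edge_symm]
      have suppG : ∀ i, i ∉ A → ∀ j, G i j = 0 := by
        intro i hi j
        have hix : i ≠ x := fun h => hi (h ▸ hx)
        have hiy : i ≠ y := fun h => hi (h ▸ hy)
        have e1 : σ i = i := Equiv.swap_apply_of_ne_of_ne hix hiy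
        have hi' : i ∉ A.erase y := fun h => hi (mem_of_mem_erase h)
        have e2 : (edge x y i j : K) = 0 := by
          unfold edge
          rw [if_neg]
          tauto
        simp only [hG]
        rw [e1, g2 i hi', g2 i hi', e2]
        ring
      have map1 : ∀ S : Finset V, (x ∈ S ↔ y ∈ S) → S.map σ.toEmbedding = S := by
        intro S hS
        ext z
        rw [mem_map_equiv, hσ, Equiv.symm_swap]
        by_cases hzx : z = x
        · subst hzx
          rw [Equiv.swap_apply_left]; exact hS.symm
        · by_cases hzy : z = y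
          · subst hzy
            rw [Equiv.swap_apply_right]; exact hS
          · rw [Equiv.swap_apply_of_ne_of_ne hzx hzy]
      have rho1 : ∀ S : Finset V, (x ∈ S ↔ y ∈ S) → rho x y S = S := by
        intro S hS
        ext z
        rw [mem_rho]
        by_cases hzy : z = y
        · subst hzy
          rw [if_pos rfl]; exact hS
        · rw [if_neg hzy]
      have cutN : ∀ S : Finset V, (x ∈ S ↔ y ∈ S) → cut G S = cut G' S := by
        intro S hS
        rw [cutG, map1 S hS, if_pos hS]
        ring
      have sing : ∀ i, cut G {i} = d {i} := by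
        intro i
        by_cases hix : i = x
        · subst hix
          have m1 : ({i} : Finset V).map σ.toEmbedding = {y} := by
            rw [map_singleton]
            simp [hσ]
          have n1 : ¬ (i ∈ ({i} : Finset V) ↔ y ∈ ({i} : Finset V)) := by
            simp [Ne.symm hxy]
          have r1 : rho i y {i} = {i} ∪ {y} := by
            unfold rho
            rw [if_pos (mem_singleton_self i)]
            ext z; simp [or_comm]
          have r2 : rho i y {y} = ∅ := by
            unfold rho
            rw [if_neg (by simp [hxy])]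
            simp
          rw [cutG, m1, if_neg n1, g3, g3]
          show p * d (rho i y {i}) + (1 - p) * d (rho i y {y}) + β * 1 = d {i}
          rw [r1, r2, hd.zero, b1]
          ring
        · by_cases hiy : i = y
          · subst hiy
            have m1 : ({i} : Finset V).map σ.toEmbedding = {x} := by
              rw [map_singleton]
              simp [hσ]
            have n1 : ¬ (x ∈ ({i} : Finset V) ↔ i ∈ ({i} : Finset V)) := by
              simp [hxy]
            have r1 : rho x i {x} = {x} ∪ {i} := by
              unfold rho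
              rw [if_pos (mem_singleton_self x)]
              ext z; simp [or_comm]
            have r2 : rho x i {i} = ∅ := by
              unfold rho
              rw [if_neg (by simp [hxy])]
              simp
            rw [cutG, m1, if_neg n1, g3, g3]
            show p * d (rho x i {i}) + (1 - p) * d (rho x i {x}) + β * 1 = d {i}
            rw [r1, r2, hd.zero, b2]
            ring
          · have n1 : (x ∈ ({i} : Finset V) ↔ y ∈ ({i} : Finset V)) := by
              simp [Ne.symm hix, Ne.symm hiy]
            rw [cutN _ n1, g3]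
            show d (rho x y {i}) = d {i}
            rw [rho1 _ n1]
      refine ⟨G, symG, suppG, sing, fun S => ?_, fun S hS => ?_⟩
      · by_cases hxS : x ∈ S
        · by_cases hyS : y ∈ S
          · have n1 : (x ∈ S ↔ y ∈ S) := ⟨fun _ => hyS, fun _ => hxS⟩
            rw [cutN _ n1]
            have := g4 S
            simp only [rho1 S n1] at this
            exact this
          · have n1 : ¬ (x ∈ S ↔ y ∈ S) := fun h => hyS (h.1 hxS)
            have hdis : Disjoint (S.erase x) ({x} ∪ {y}) := by
              rw [disjoint_union_right, disjoint_singleton_right, disjoint_singleton_right]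
              exact ⟨notMem_erase x S, fun h => hyS (mem_of_mem_erase h)⟩
            have c1 := b3 (S.erase x) hdis
            have e1 : S.erase x ∪ {x} = S := by
              rw [union_comm, ← insert_eq, insert_erase hxS]
            rw [e1] at c1
            have g4a := g4 S
            have r1 : rho x y S = S ∪ {y} := by
              unfold rho
              rw [if_pos hxS]
              ext z; simp [or_comm]
            simp only [r1] at g4a
            have g4b := g4 (S.map σ.toEmbedding)
            have r2 : rho x y (S.map σ.toEmbedding) = S.erase x := by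
              ext z
              rw [mem_rho, mem_map_equiv, hσ, Equiv.symm_swap, mem_erase]
              by_cases hzy : z = y
              · subst hzy
                rw [if_pos rfl, Equiv.swap_apply_left]
                tauto
              · rw [if_neg hzy]
                by_cases hzx : z = x
                · subst hzx
                  rw [Equiv.swap_apply_left]
                  tauto
                · rw [Equiv.swap_apply_of_ne_of_ne hzx hzy]
                  tauto
            simp only [r2] at g4b
            rw [cutG, if_neg n1]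
            have k1 := mul_le_mul_of_nonneg_left g4a p0
            have k2 := mul_le_mul_of_nonneg_left g4b (sub_nonneg.2 p1)
            linarith
        · by_cases hyS : y ∈ S
          · have n1 : ¬ (x ∈ S ↔ y ∈ S) := fun h => hxS (h.2 hyS)
            have hdis : Disjoint (S.erase y) ({x} ∪ {y}) := by
              rw [disjoint_union_right, disjoint_singleton_right, disjoint_singleton_right]
              exact ⟨fun h => hxS (mem_of_mem_erase h), notMem_erase y S⟩
            have c1 := b4 (S.erase y) hdis
            have e1 : S.erase y ∪ {y} = S := by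
              rw [union_comm, ← insert_eq, insert_erase hyS]
            have e2 : S.erase y ∪ {x} ∪ {y} = insert x S := by
              rw [union_right_comm, e1, insert_eq, union_comm]
            rw [e1, e2] at c1
            have g4a := g4 S
            have r1 : rho x y S = S.erase y := by
              unfold rho
              rw [if_neg hxS]
            simp only [r1] at g4a
            have g4b := g4 (S.map σ.toEmbedding)
            have r2 : rho x y (S.map σ.toEmbedding) = insert x S := by
              ext z
              rw [mem_rho, mem_map_equiv, hσ, Equiv.symm_swap, mem_insert]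
              by_cases hzy : z = y
              · subst hzy
                rw [if_pos rfl, Equiv.swap_apply_left]
                tauto
              · rw [if_neg hzy]
                by_cases hzx : z = x
                · subst hzx
                  rw [Equiv.swap_apply_left]
                  tauto
                · rw [Equiv.swap_apply_of_ne_of_ne hzx hzy]
                  tauto
            simp only [r2] at g4b
            rw [cutG, if_neg n1]
            have k1 := mul_le_mul_of_nonneg_left g4a p0
            have k2 := mul_le_mul_of_nonneg_left g4b (sub_nonneg.2 p1)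
            linarith
          · have n1 : (x ∈ S ↔ y ∈ S) := ⟨fun h => absurd h hxS, fun h => absurd h hyS⟩
            rw [cutN _ n1]
            have := g4 S
            simp only [rho1 S n1] at this
            exact this
      · have small : ∀ S : Finset V, (A ∩ S).card ≤ 1 → cut G S = d S := by
          intro S hS
          rw [cut_supp symG suppG, hd.supp, inter_comm]
          by_cases h : A ∩ S = ∅
          · rw [h, cut_empty, hd.zero]
          · have h1 : (A ∩ S).card = 1 := by
              have := card_pos.2 (nonempty_iff_ne_empty.2 h)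
              omega
            obtain ⟨z, hz⟩ := card_eq_one.1 h1
            rw [hz, sing]
        rcases hsep S hS with h | h | h
        · exact small S h
        · rw [← cut_compl symG, ← hd.symm]
          apply small
          rw [← sdiff_eq_inter_compl]
          exact h
        · rw [cutN _ h, g5 S hS]
          simp only [rho1 S h]

end Pool.Agent.NH46.FW
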