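import Pool.Agent.NH46.FW.Third
import Pool.Agent.NH46.FW.Merge

set_option autoImplicit false
set_option linter.unusedSectionVars false

/-!
# Arcs on a circle
-/

namespace Pool.Agent.NH46.FW

open Finset

section order

variable {V : Type} [Fintype V] [DecidableEq V]

/-- The member `S` of the family, or its complement, is an interval. -/
def IsInterval (A : Finset V) (pos : V → ℕ) (S : Finset V) : Prop :=
  (∃ α β : ℕ, ∀ z ∈ A, z ∈ S ↔ α ≤ pos z ∧ pos z < β) ∨
    ∃ α β : ℕ, ∀ z ∈ A, z ∉ S ↔ α ≤ pos z ∧ pos z < β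

theorem exists_order (F : Set (Finset V)) : ∀ (k : ℕ) (A : Finset V), A.card ≤ k → Compat F A →
    ∃ pos : V → ℕ, (∀ x ∈ A, ∀ y ∈ A, pos x = pos y → x = y) ∧ ∀ S ∈ F, IsInterval A pos S := by
  intro k
  induction k with
  | zero =>
    intro A hk _
    have hA : A = ∅ := card_eq_zero.1 (Nat.le_zero.1 hk)
    subst hA
    refine ⟨fun _ => 0, fun x hx => absurd hx (notMem_empty x), fun S _ => Or.inl ⟨0, 0, ?_⟩⟩
    intro z hz
    exact absurd hz (notMem_empty z)
  | succ k ih =>
    intro A hk hF
    have small : ∀ (A : Finset V) (pos : V → ℕ) (S : Finset V),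
        (∀ x ∈ A, ∀ y ∈ A, pos x = pos y → x = y) → (A ∩ S).card ≤ 1 →
        ∃ α β : ℕ, ∀ z ∈ A, z ∈ S ↔ α ≤ pos z ∧ pos z < β := by
      intro A pos S hinj hS
      by_cases h : A ∩ S = ∅
      · refine ⟨0, 0, fun z hz => ⟨fun hzS => ?_, fun hz => ?_⟩⟩
        · have : z ∈ A ∩ S := mem_inter.2 ⟨hz, hzS⟩
          rw [h] at this
          exact absurd this (notMem_empty z)
        · omega
      · obtain ⟨a, ha⟩ := nonempty_iff_ne_empty.2 h
        have ha' := mem_inter.1 ha
        refine ⟨pos a, pos a + 1, fun z hz => ⟨fun hzS => ?_, fun hp => ?_⟩⟩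
        · have : z = a := card_le_one.1 hS z (mem_inter.2 ⟨hz, hzS⟩) a ha
          rw [this]; omega
        · have : z = a := hinj z hz a ha'.1 (by omega)
          rw [this]; exact ha'.2
    by_cases hA : A.card ≤ 1
    · refine ⟨fun _ => 0, fun x hx y hy _ => card_le_one.1 hA x hx y hy, fun S _ => Or.inl ?_⟩
      exact small A (fun _ => 0) S (fun x hx y hy _ => card_le_one.1 hA x hx y hy)
        ((card_le_card inter_subset_left).trans hA)
    · rw [not_le] at hA
      obtain ⟨x, hx, y, hy, hxy, hsep⟩ := exists_cherry hF hA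
      obtain ⟨pos, p1, p2⟩ := ih (A.erase y) (by rw [card_erase_of_mem hy]; omega)
        (hF.mono (erase_subset y A))
      set pos' : V → ℕ := fun z => if z = y then 2 * pos x + 1 else 2 * pos z with hpos'
      have py : pos' y = 2 * pos x + 1 := if_pos rfl
      have pn : ∀ z, z ≠ y → pos' z = 2 * pos z := fun z hz => if_neg hz
      have hinj : ∀ a ∈ A, ∀ b ∈ A, pos' a = pos' b → a = b := by
        intro a ha b hb hab
        by_cases h1 : a = y
        · by_cases h2 : b = y
          · rw [h1, h2]
          · rw [h1, py, pn b h2] at hab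
            omega
        · by_cases h2 : b = y
          · rw [h2, py, pn a h1] at hab
            omega
          · rw [pn a h1, pn b h2] at hab
            exact p1 a (mem_erase.2 ⟨h1, ha⟩) b (mem_erase.2 ⟨h2, hb⟩) (by omega)
      have hx' : x ∈ A.erase y := mem_erase.2 ⟨hxy, hx⟩
      refine ⟨pos', hinj, fun S hS => ?_⟩
      rcases hsep S hS with h | h | h
      · exact Or.inl (small A pos' S hinj h)
      · right
        obtain ⟨α, β, h1⟩ := small A pos' Sᶜ hinj (by rw [← sdiff_eq_inter_compl]; exact h)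
        exact ⟨α, β, fun z hz => by rw [← h1 z hz, mem_compl]⟩
      · rcases p2 S hS with ⟨α, β, h1⟩ | ⟨α, β, h1⟩
        · refine Or.inl ⟨2 * α, 2 * β, fun z hz => ?_⟩
          by_cases hzy : z = y
          · rw [hzy, ← h, h1 x hx', py]
            omega
          · rw [h1 z (mem_erase.2 ⟨hzy, hz⟩), pn z hzy]
            omega
        · refine Or.inr ⟨2 * α, 2 * β, fun z hz => ?_⟩
          by_cases hzy : z = y
          · rw [hzy, ← h, h1 x hx', py]
            omega
          · rw [h1 z (mem_erase.2 ⟨hzy, hz⟩), pn z hzy]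
            omega

end order

section arcs

variable {V : Type} [Fintype V] [DecidableEq V] (pos : V → ℕ) (r : V → ℕ)

/-- The beginning of the interval of a mark. -/
def start (i : V) : ℕ := ∑ j ∈ univ.filter (fun j => pos j < pos i), r j

/-- The interval of a mark. -/
def itv (i : V) : Finset ℕ := Ico (start pos r i) (start pos r i + r i)

variable {pos r}

theorem start_le {i j : V} (h : pos i < pos j) : start pos r i + r i ≤ start pos r j := by
  unfold start
  have h1 : i ∉ univ.filter (fun k => pos k < pos i) := by simp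
  rw [add_comm, ← sum_insert h1]
  apply sum_le_sum_of_subset
  intro k hk
  rw [mem_insert, mem_filter] at hk
  rw [mem_filter]
  refine ⟨mem_univ k, ?_⟩
  rcases hk with hk | hk
  · rw [hk]; exact h
  · exact hk.2.trans h

theorem itv_disjoint (hpos : Function.Injective pos) {i j : V} (h : i ≠ j) :
    Disjoint (itv pos r i) (itv pos r j) := by
  rw [disjoint_left]
  intro t ht ht'
  unfold itv at ht ht'
  rw [mem_Ico] at ht ht'
  rcases lt_trichotomy (pos i) (pos j) with h1 | h1 | h1
  · have := start_le (r := r) h1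
    omega
  · exact h (hpos h1)
  · have := start_le (r := r) h1
    omega

theorem itv_union (hpos : Function.Injective pos) {S : Finset V} {α β : ℕ}
    (hS : ∀ z, z ∈ S ↔ α ≤ pos z ∧ pos z < β) :
    S.biUnion (itv pos r) = Ico (∑ j ∈ univ.filter (fun j => pos j < α), r j)
      (∑ j ∈ univ.filter (fun j => pos j < α), r j + ∑ j ∈ S, r j) := by
  apply eq_of_subset_of_card_le
  · intro t ht
    obtain ⟨i, hi, hti⟩ := mem_biUnion.1 ht
    unfold itv at hti
    rw [mem_Ico] at hti ⊢
    have hi' := (hS i).1 hi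
    have h1 : ∑ j ∈ univ.filter (fun j => pos j < α), r j ≤ start pos r i := by
      apply sum_le_sum_of_subset
      intro k hk
      rw [mem_filter] at hk ⊢
      exact ⟨hk.1, lt_of_lt_of_le hk.2 hi'.1⟩
    have h2 : start pos r i + r i ≤ ∑ j ∈ univ.filter (fun j => pos j < α), r j + ∑ j ∈ S, r j := by
      have hd : Disjoint (univ.filter (fun j => pos j < α)) S := by
        rw [disjoint_left]
        intro k hk hk'
        rw [mem_filter] at hk
        have := (hS k).1 hk'
        omega
      have h3 : i ∉ univ.filter (fun k => pos k < pos i) := by simp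
      unfold start
      rw [add_comm, ← sum_insert h3, ← sum_union hd]
      apply sum_le_sum_of_subset
      intro k hk
      rw [mem_insert, mem_filter] at hk
      rw [mem_union, mem_filter, hS]
      rcases hk with hk | hk
      · rw [hk]; exact Or.inr hi'
      · by_cases h4 : pos k < α
        · exact Or.inl ⟨mem_univ k, h4⟩
        · exact Or.inr ⟨not_lt.1 h4, hk.2.trans hi'.2⟩
    omega
  · rw [card_biUnion fun i _ j _ hij => itv_disjoint hpos hij, Nat.card_Ico, Nat.add_sub_cancel_left]
    apply le_of_eq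
    refine sum_congr rfl fun i _ => ?_
    unfold itv
    rw [Nat.card_Ico, Nat.add_sub_cancel_left]

end arcs

section graph

variable {M : ℕ} [NeZero M] {f : ℕ → ℝ} {V : Type} [Fintype V] [DecidableEq V]

theorem en_eq_energy (T : Finset ℕ) : en M f T T = energy M f
    (fun x => (T.filter fun t : ℕ => (t : ZMod M) = x).card)
    (fun x => (T.filter fun t : ℕ => (t : ZMod M) = x).card) := by
  unfold en energy
  congr 1
  rw [← sum_fiberwise T (fun t : ℕ => (t : ZMod M))]
  refine sum_congr rfl fun x _ => ?_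
  have h1 : ∀ t ∈ T.filter (fun t : ℕ => (t : ZMod M) = x),
      ∑ t' ∈ T, ker M f ((t : ZMod M) - t')
        = ∑ y, ker M f (x - y) * (T.filter fun t : ℕ => (t : ZMod M) = y).card := by
    intro t ht
    rw [mem_filter] at ht
    rw [ht.2, ← sum_fiberwise T (fun t : ℕ => (t : ZMod M))]
    refine sum_congr rfl fun y _ => ?_
    have h2 : ∀ t' ∈ T.filter (fun t : ℕ => (t : ZMod M) = y),
        ker M f (x - (t' : ZMod M)) = ker M f (x - y) := by
      intro t' ht'
      rw [mem_filter] at ht'
      rw [ht'.2]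
    rw [sum_congr rfl h2, sum_const, nsmul_eq_mul, mul_comm]
  rw [sum_congr rfl h1, sum_const, nsmul_eq_mul, mul_sum]
  refine sum_congr rfl fun y _ => ?_
  ring

/-- The graph of the weights on the circle. -/
theorem circle_graph (hR : S_Riesz) (hT : IsThird M f) (hc : IsConc M f) (w : V → ZMod M)
    (hw : ∑ i, w i = 0) (F : Set (Finset V))
    (hF : ∀ S ∈ F, ∀ T ∈ F, S ⊆ T ∨ T ⊆ S ∨ Disjoint S T ∨ S ∪ T = univ) :
    ∃ G : V → V → ℝ, (∀ i j, G i j = G j i) ∧ (∀ i, cut G {i} = phi M f (w i)) ∧
      (∀ S, phi M f (∑ i ∈ S, w i) ≤ cut G S) ∧ ∀ S ∈ F, cut G S = phi M f (∑ i ∈ S, w i) := by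
  obtain ⟨pos, hp, hF'⟩ := exists_order F (univ : Finset V).card univ le_rfl (by
    intro S hS T hT
    rw [univ_inter, univ_inter, ← disjoint_iff_inter_eq_empty, univ_subset_iff]
    exact hF S hS T hT)
  have hpos : Function.Injective pos := fun x y h => hp x (mem_univ x) y (mem_univ y) h
  set r : V → ℕ := fun i => (w i).val with hr
  have hrw : ∀ S : Finset V, ((∑ i ∈ S, r i : ℕ) : ZMod M) = ∑ i ∈ S, w i := by
    intro S
    rw [Nat.cast_sum]
    exact sum_congr rfl fun i _ => ZMod.natCast_zmod_val (w i)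
  set G : V → V → ℝ := fun i j => ∑ t ∈ itv pos r i, ∑ t' ∈ itv pos r j,
    ker M f ((t : ZMod M) - t') with hG
  have hGs : ∀ i j, G i j = G j i := by
    intro i j
    simp only [hG]
    rw [sum_comm]
    refine sum_congr rfl fun t _ => sum_congr rfl fun t' _ => ?_
    rw [← ker_neg hT, neg_sub]
  have huniv : (univ : Finset V).biUnion (itv pos r) = Ico 0 (0 + ∑ i, r i) := by
    have := itv_union (r := r) hpos (S := univ) (α := 0) (β := univ.sup pos + 1) (by
      intro z
      refine ⟨fun _ => ⟨Nat.zero_le _, ?_⟩, fun _ => mem_univ z⟩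
      have := le_sup (f := pos) (mem_univ z)
      omega)
    rw [this]
    simp
  have hzero : ∀ t : ZMod M, ∑ t' ∈ (univ : Finset V).biUnion (itv pos r),
      ker M f (t - (t' : ZMod M)) = 0 := by
    intro t
    rw [huniv, sum_ker_Ico]
    have e : ((0 + ∑ i, r i : ℕ) : ZMod M) = 0 := by rw [zero_add, hrw, hw]
    rw [e, Nat.cast_zero, sub_self, zero_div]
  have hcut : ∀ S, cut G S = en M f (S.biUnion (itv pos r)) (S.biUnion (itv pos r)) := by
    intro S
    rw [cut_eq]
    have hdj : ∀ S : Finset V, Set.PairwiseDisjoint (S : Set V) (itv pos r) :=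
      fun S i _ j _ hij => itv_disjoint hpos hij
    have e1 : ∑ i ∈ S, ∑ j ∈ Sᶜ, G i j = ∑ t ∈ S.biUnion (itv pos r),
        ∑ t' ∈ Sᶜ.biUnion (itv pos r), ker M f ((t : ZMod M) - t') := by
      rw [sum_biUnion (hdj S)]
      refine sum_congr rfl fun i _ => ?_
      simp only [hG]
      rw [sum_comm]
      refine sum_congr rfl fun t _ => ?_
      rw [sum_biUnion (hdj Sᶜ)]
    rw [e1]
    unfold en
    rw [← sum_neg_distrib]
    refine sum_congr rfl fun t _ => ?_
    have h1 := hzero (t : ZMod M)
    have h2 : (univ : Finset V).biUnion (itv pos r)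
        = S.biUnion (itv pos r) ∪ Sᶜ.biUnion (itv pos r) := by
      rw [← union_biUnion, union_compl]
    have h3 : Disjoint (S.biUnion (itv pos r)) (Sᶜ.biUnion (itv pos r)) := by
      rw [disjoint_biUnion_left]
      intro i hi
      rw [disjoint_biUnion_right]
      intro j hj
      refine itv_disjoint hpos ?_
      rintro rfl
      exact (mem_compl.1 hj) hi
    rw [h2, sum_union h3] at h1
    linarith
  have hint : ∀ (S : Finset V) (α β : ℕ), (∀ z, z ∈ S ↔ α ≤ pos z ∧ pos z < β) →
      cut G S = phi M f (∑ i ∈ S, w i) := by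
    intro S α β h
    rw [hcut, itv_union hpos h, en_interval hT, hrw]
  refine ⟨G, hGs, fun i => ?_, fun S => ?_, fun S hS => ?_⟩
  · rw [hint {i} (pos i) (pos i + 1), sum_singleton]
    intro z
    rw [mem_singleton]
    constructor
    · rintro rfl; omega
    · intro h; exact hpos (by omega)
  · rw [hcut, en_eq_energy]
    have h1 := phi_le_energy hR hT hc _
      (fun x => ((S.biUnion (itv pos r)).filter fun t : ℕ => (t : ZMod M) = x).card) le_rfl
    have h2 : ∑ x : ZMod M, ((S.biUnion (itv pos r)).filter fun t : ℕ => (t : ZMod M) = x).card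
        = ∑ i ∈ S, r i := by
      have h3 := card_eq_sum_card_fiberwise (f := fun t : ℕ => (t : ZMod M))
        (s := S.biUnion (itv pos r)) (t := univ) (fun _ _ => mem_coe.2 (mem_univ _))
      rw [← h3, card_biUnion fun i _ j _ hij => itv_disjoint hpos hij]
      refine sum_congr rfl fun i _ => ?_
      unfold itv
      rw [Nat.card_Ico, Nat.add_sub_cancel_left]
    rw [h2, hrw] at h1
    exact h1
  · rcases hF' S hS with ⟨α, β, h⟩ | ⟨α, β, h⟩
    · exact hint S α β fun z => h z (mem_univ z)
    · rw [← cut_compl hGs, hint Sᶜ α β fun z => by rw [mem_compl]; exact h z (mem_univ z)]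
      have e : ∑ i ∈ Sᶜ, w i = - ∑ i ∈ S, w i := by
        rw [eq_neg_iff_add_eq_zero, sum_compl_add_sum, hw]
      rw [e, phi_neg hT]

end graph

end Pool.Agent.NH46.FW
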