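import Mathlib

set_option autoImplicit false

/-!
# Kernels on a circle
-/

namespace Pool.Agent.NH46.FW

open Finset

/-- `K` is even, and away from `0` it does not increase with the distance from `0`. -/
structure IsKernel (M : ℕ) (K : ZMod M → ℝ) : Prop where
  even : ∀ d, K (-d) = K d
  anti : ∀ a b : ℕ, 1 ≤ a → a ≤ b → 2 * b ≤ M → K (b : ZMod M) ≤ K (a : ZMod M)

/-- The arc `{0, …, a - 1}`. -/
def arc (M a : ℕ) : Finset (ZMod M) := (Finset.range a).image fun t : ℕ => (t : ZMod M)

/-- The rearrangement inequality of Riesz on a circle: among the sets with a given number of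
elements the arcs have the smallest cut. -/
def S_Riesz : Prop :=
  ∀ (M : ℕ) [NeZero M] (K : ZMod M → ℝ), IsKernel M K → ∀ A : Finset (ZMod M),
    ∑ x ∈ arc M A.card, ∑ y ∈ (arc M A.card)ᶜ, K (x - y) ≤ ∑ x ∈ A, ∑ y ∈ Aᶜ, K (x - y)

end Pool.Agent.NH46.FW
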