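import Pool.Agent.NH46.FW.Arcs

set_option autoImplicit false
set_option linter.unusedSectionVars false

/-!
# Semiample divisors from weights on a circle
-/

namespace Pool.Agent.NH46.FW

open Finset

variable {V : Type} [Fintype V] [DecidableEq V]

/-- For every compatible family there is a graph whose degrees are the numbers `d {i}`, with cuts
at least `d S`, and equal to `d S` for the members of the family. -/
def HasGraphs (d : Finset V → ℝ) : Prop :=
  ∀ F : Set (Finset V), (∀ S ∈ F, ∀ T ∈ F, S ⊆ T ∨ T ⊆ S ∨ Disjoint S T ∨ S ∪ T = univ) →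
    ∃ G : V → V → ℝ, (∀ i j, G i j = G j i) ∧ (∀ i, cut G {i} = d {i}) ∧
      (∀ S, d S ≤ cut G S) ∧ ∀ S ∈ F, cut G S = d S

theorem HasGraphs.gauge {d : Finset V → ℝ} {H : V → V → ℝ} (hH : ∀ i j, H i j = H j i)
    (h : HasGraphs fun S => d S + cut H S) : HasGraphs d := by
  intro F hF
  obtain ⟨G, h1, h2, h3, h4⟩ := h F hF
  have e : ∀ S, cut (fun i j => G i j + (-1) * H i j) S = cut G S - cut H S := by
    intro S
    rw [cut_add, cut_mul]
    ring
  refine ⟨fun i j => G i j + (-1) * H i j, fun i j => ?_, fun i => ?_, fun S => ?_,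
    fun S hS => ?_⟩
  · show G i j + (-1) * H i j = G j i + (-1) * H j i
    rw [h1, hH]
  · rw [e, h2]
    show d {i} + cut H {i} - cut H {i} = d {i}
    ring
  · rw [e]
    have h5 : d S + cut H S ≤ cut G S := h3 S
    linarith
  · rw [e, h4 S hS]
    show d S + cut H S - cut H S = d S
    ring

theorem HasGraphs.sum {ι : Type} [Fintype ι] {d : ι → Finset V → ℝ} (h : ∀ t, HasGraphs (d t)) :
    HasGraphs fun S => ∑ t, d t S := by
  intro F hF
  choose G h1 h2 h3 h4 using fun t => h t F hF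
  refine ⟨fun i j => ∑ t, G t i j, fun i j => sum_congr rfl fun t _ => h1 t i j, fun i => ?_,
    fun S => ?_, fun S hS => ?_⟩
  · rw [cut_sum]; exact sum_congr rfl fun t _ => h2 t i
  · rw [cut_sum]; exact sum_le_sum fun t _ => h3 t S
  · rw [cut_sum]; exact sum_congr rfl fun t _ => h4 t S hS

theorem circle_conc (hR : S_Riesz) {M : ℕ} (hM : 1 ≤ M) {f : ℕ → ℝ} (hT : IsThird M f)
    (hc : IsConc M f) (w : V → ℕ) (hw : M ∣ ∑ i, w i) :
    HasGraphs fun S : Finset V => f ((∑ i ∈ S, w i) % M) := by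
  have : NeZero M := ⟨by omega⟩
  intro F hF
  obtain ⟨G, h1, h2, h3, h4⟩ := circle_graph hR hT hc (fun i => ((w i : ℕ) : ZMod M)) (by
    rw [← Nat.cast_sum]
    exact (ZMod.natCast_eq_zero_iff _ _).2 hw) F hF
  have e : ∀ S : Finset V, phi M f (∑ i ∈ S, ((w i : ℕ) : ZMod M)) = f ((∑ i ∈ S, w i) % M) := by
    intro S
    unfold phi
    rw [← Nat.cast_sum, ZMod.val_natCast]
  refine ⟨G, h1, fun i => ?_, fun S => ?_, fun S hS => ?_⟩
  · have := e {i}
    rw [sum_singleton] at this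
    rw [h2]
    exact this
  · show f ((∑ i ∈ S, w i) % M) ≤ cut G S
    rw [← e]; exact h3 S
  · rw [h4 S hS]
    exact e S

theorem third_add {M : ℕ} {f : ℕ → ℝ} (hT : IsThird M f) (lam : ℝ) :
    IsThird M fun x => f x + lam * (x * ((M : ℝ) - x)) where
  zero := by simp [hT.zero]
  symm := fun x hx => by
    rw [hT.symm x hx, Nat.cast_sub hx]
    ring
  third := fun x h1 h2 => by
    have h3 := hT.third x h1 h2
    obtain ⟨y, rfl⟩ : ∃ y, x = y + 1 := ⟨x - 1, by omega⟩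
    rw [Nat.add_sub_cancel] at h3 ⊢
    push_cast
    linarith

/-- If the sum of the weights is `M` then no concavity is needed. -/
theorem circle_one (hR : S_Riesz) {M : ℕ} (hM : 1 ≤ M) {f : ℕ → ℝ} (hT : IsThird M f)
    (w : V → ℕ) (hw : ∑ i, w i = M) :
    HasGraphs fun S : Finset V => f ((∑ i ∈ S, w i) % M) := by
  obtain ⟨lam, hlam⟩ : ∃ lam : ℝ, ∀ x ∈ range M, f (x - 1) + f (x + 1) - 2 * f x ≤ 2 * lam := by
    refine ⟨∑ x ∈ range M, |f (x - 1) + f (x + 1) - 2 * f x|, fun x hx => ?_⟩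
    have h1 := single_le_sum (f := fun x => |f (x - 1) + f (x + 1) - 2 * f x|)
      (fun x _ => abs_nonneg _) hx
    have h2 := le_abs_self (f (x - 1) + f (x + 1) - 2 * f x)
    have h3 : 0 ≤ ∑ x ∈ range M, |f (x - 1) + f (x + 1) - 2 * f x| :=
      sum_nonneg fun x _ => abs_nonneg _
    linarith
  have hc : IsConc M fun x => f x + lam * (x * ((M : ℝ) - x)) := by
    intro x h1 h2
    have h3 := hlam x (mem_range.2 h2)
    obtain ⟨y, rfl⟩ : ∃ y, x = y + 1 := ⟨x - 1, by omega⟩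
    rw [Nat.add_sub_cancel] at h3
    show f (y + 1 - 1) + lam * (((y + 1 - 1 : ℕ) : ℝ) * ((M : ℝ) - ((y + 1 - 1 : ℕ) : ℝ))) +
      (f (y + 1 + 1) + lam * (((y + 1 + 1 : ℕ) : ℝ) * ((M : ℝ) - ((y + 1 + 1 : ℕ) : ℝ)))) ≤
      2 * (f (y + 1) + lam * (((y + 1 : ℕ) : ℝ) * ((M : ℝ) - ((y + 1 : ℕ) : ℝ))))
    rw [Nat.add_sub_cancel]
    push_cast
    linarith
  have h := circle_conc hR hM (third_add hT lam) hc w (by rw [hw])
  refine HasGraphs.gauge (H := fun i j => lam * ((w i : ℝ) * w j)) (fun i j => by ring) ?_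
  have e : (fun S : Finset V => f ((∑ i ∈ S, w i) % M) + cut (fun i j => lam * ((w i : ℝ) * w j)) S)
      = fun S : Finset V => f ((∑ i ∈ S, w i) % M) + lam * (((∑ i ∈ S, w i) % M : ℕ) *
        ((M : ℝ) - ((∑ i ∈ S, w i) % M : ℕ))) := by
    funext S
    congr 1
    rw [cut_mul, cut_eq, ← sum_mul_sum]
    congr 1
    have h1 : ∑ i ∈ S, w i + ∑ i ∈ Sᶜ, w i = M := by rw [sum_add_sum_compl, hw]
    have h2 : (∑ i ∈ Sᶜ, (w i : ℝ)) = (M : ℝ) - ((∑ i ∈ S, w i : ℕ) : ℝ) := by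
      rw [← h1]; push_cast; ring
    have h3 : (∑ i ∈ S, (w i : ℝ)) = ((∑ i ∈ S, w i : ℕ) : ℝ) := by push_cast; rfl
    rw [h2, h3]
    rcases Nat.lt_or_ge (∑ i ∈ S, w i) M with h4 | h4
    · rw [Nat.mod_eq_of_lt h4]
    · have h5 : ∑ i ∈ S, w i = M := by omega
      rw [h5, Nat.mod_self]
      simp
  rw [e]
  exact h

end Pool.Agent.NH46.FW
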