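import Pool.Agent.NH46.FW.Merge

set_option autoImplicit false

/-!
# The criterion
-/

namespace Pool.Agent.NH46.FW

open Finset

variable {K : Type} [Field K] [LinearOrder K] [IsStrictOrderedRing K]
  {V : Type} [Fintype V] [DecidableEq V]

omit [Fintype V] [DecidableEq V] in
theorem dj {A B : Finset V} (h : Disjoint A B) (z : V) : z ∈ A → z ∉ B :=
  fun hz => disjoint_left.1 h hz

/-- A partition of the marks into four nonempty sets. -/
def IsFour (A B C D : Finset V) : Prop :=
  A.Nonempty ∧ B.Nonempty ∧ C.Nonempty ∧ D.Nonempty ∧ Disjoint A B ∧ Disjoint A C ∧ Disjoint A D ∧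
    Disjoint B C ∧ Disjoint B D ∧ Disjoint C D ∧ A ∪ B ∪ C ∪ D = univ

/-- The triangle inequalities and the quadratic inequalities. -/
structure Crit (d : Finset V → K) : Prop where
  zero : d ∅ = 0
  symm : ∀ S, d Sᶜ = d S
  triangle : ∀ A B, Disjoint A B → d (A ∪ B) ≤ d A + d B
  gap : ∀ A B C D, IsFour A B C D →
    (d A - d B) * (d D - d C) - d (A ∪ B) * (d (A ∪ C) - d (A ∪ D)) ≤
      d (A ∪ B) * (d A + d B + d C + d D - d (A ∪ B) - d (A ∪ C) - d (A ∪ D))

theorem Crit.triangle' {d : Finset V → K} (h : Crit d) {A B : Finset V} (hAB : Disjoint A B) :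
    d A ≤ d (A ∪ B) + d B := by
  have h1 := h.triangle (A ∪ B)ᶜ B (by
    rw [disjoint_left]
    intro z hz hz'
    rw [mem_compl, mem_union, not_or] at hz
    exact hz.2 hz')
  have e1 : (A ∪ B)ᶜ ∪ B = Aᶜ := by
    ext z
    have := dj hAB z
    simp only [mem_union, mem_compl]
    tauto
  rw [e1, h.symm, h.symm] at h1
  exact h1

theorem Crit.nonneg {d : Finset V → K} (h : Crit d) (A : Finset V) : 0 ≤ d A := by
  have h1 := h.triangle A Aᶜ disjoint_compl_right
  have e : d univ = 0 := by rw [← compl_empty, h.symm, h.zero]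
  rw [h.symm, union_compl, e] at h1
  linarith

theorem Crit.merges {d : Finset V → K} (h : Crit d) {X Y : Finset V} (hXY : Disjoint X Y) :
    Merges d X Y := by
  have hYX : Disjoint Y X := hXY.symm
  have t1 := h.triangle X Y hXY
  have t2 := h.triangle' hXY
  have t3 := h.triangle' hYX
  rw [union_comm Y X] at t3
  by_cases he : d (X ∪ Y) = 0
  · rw [he] at t1 t2 t3
    refine ⟨d X, 1 / 2, by norm_num, by norm_num, by rw [he]; ring, ?_, fun S hS => ?_⟩
    · rw [he]; linarith
    · rw [disjoint_union_right] at hS
      have s1 := h.triangle S X hS.1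
      have s2 := h.triangle' (A := S ∪ X) (B := Y) (by
        rw [disjoint_union_left]
        exact ⟨hS.2, hXY⟩)
      linarith
  · have he0 : 0 < d (X ∪ Y) := lt_of_le_of_ne (h.nonneg _) (Ne.symm he)
    set e := d (X ∪ Y) with hedef
    have hne : e ≠ 0 := he
    refine ⟨(d X + d Y - e) / 2, (d X - d Y + e) / (2 * e), ?_, ?_, ?_, ?_, fun S hS => ?_⟩
    · apply div_nonneg _ (by linarith)
      linarith
    · rw [div_le_one (by linarith)]
      linarith
    · field_simp; ring
    · field_simp; ring
    · rw [disjoint_union_right] at hS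
      have goal' : 2 * e * d (S ∪ X) ≤ e * (d X + d Y - e) + (d X - d Y + e) * d (S ∪ X ∪ Y)
          + (d Y - d X + e) * d S := by
        by_cases hS0 : S = ∅
        · subst hS0
          rw [empty_union, h.zero, ← hedef]
          apply le_of_eq
          ring
        by_cases hX0 : X = ∅
        · subst hX0
          rw [empty_union] at hedef
          rw [union_empty, h.zero, ← hedef]
          apply le_of_eq
          ring
        by_cases hY0 : Y = ∅
        · subst hY0
          rw [union_empty] at hedef
          rw [union_empty, h.zero, ← hedef]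
          apply le_of_eq
          ring
        by_cases hT0 : (S ∪ X ∪ Y)ᶜ = ∅
        · have e1 : d (S ∪ X ∪ Y) = 0 := by rw [← h.symm, hT0, h.zero]
          have e2 : d S = e := by
            rw [hedef, ← h.symm S]
            congr 1
            ext z
            have a1 := dj hS.1 z
            have a2 := dj hS.2 z
            have a3 : z ∈ S ∪ X ∪ Y := by
              rw [compl_eq_empty_iff] at hT0
              rw [hT0]; exact mem_univ z
            simp only [mem_union, mem_compl] at a3 ⊢
            tauto
          have e3 : d (S ∪ X) = d Y := by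
            rw [← h.symm Y]
            congr 1
            ext z
            have a1 := dj hS.2 z
            have a2 := dj hXY z
            have a3 : z ∈ S ∪ X ∪ Y := by
              rw [compl_eq_empty_iff] at hT0
              rw [hT0]; exact mem_univ z
            simp only [mem_union, mem_compl] at a3 ⊢
            tauto
          rw [e1, e2, e3]
          apply le_of_eq
          ring
        · have hT : IsFour X Y (S ∪ X ∪ Y)ᶜ S := by
            have dT : ∀ Z, Z ⊆ S ∪ X ∪ Y → Disjoint Z (S ∪ X ∪ Y)ᶜ := by
              intro Z hZ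
              exact (disjoint_compl_right (a := S ∪ X ∪ Y)).mono_left hZ
            refine ⟨nonempty_iff_ne_empty.2 hX0, nonempty_iff_ne_empty.2 hY0,
              nonempty_iff_ne_empty.2 hT0, nonempty_iff_ne_empty.2 hS0, hXY,
              dT X (subset_union_right.trans subset_union_left), hS.1.symm,
              dT Y subset_union_right, hS.2.symm,
              (dT S (subset_union_left.trans subset_union_left)).symm, ?_⟩
            ext z
            simp only [mem_union, mem_compl, mem_univ, iff_true]
            tauto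
          have g := h.gap _ _ _ _ hT
          have e1 : d (X ∪ (S ∪ X ∪ Y)ᶜ) = d (S ∪ Y) := by
            rw [← h.symm (S ∪ Y)]
            congr 1
            ext z
            have a1 := dj hS.1 z
            have a2 := dj hXY z
            simp only [mem_union, mem_compl]
            tauto
          rw [e1, h.symm, union_comm X S, ← hedef] at g
          nlinarith [g]
      have e1 : (d X + d Y - e) / 2 + (d X - d Y + e) / (2 * e) * d (S ∪ X ∪ Y)
          + (1 - (d X - d Y + e) / (2 * e)) * d S = (e * (d X + d Y - e)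
            + (d X - d Y + e) * d (S ∪ X ∪ Y) + (d Y - d X + e) * d S) / (2 * e) := by
        field_simp
        ring
      rw [e1, le_div_iff₀ (by linarith)]
      linarith

/-- The divisor avoids every point. -/
theorem Crit.exists_graph {d : Finset V → K} (h : Crit d) (F : Set (Finset V))
    (hF : ∀ S ∈ F, ∀ T ∈ F, S ⊆ T ∨ T ⊆ S ∨ Disjoint S T ∨ S ∪ T = univ) :
    ∃ G : V → V → K, (∀ i j, G i j = G j i) ∧ (∀ i, cut G {i} = d {i}) ∧
      (∀ S, d S ≤ cut G S) ∧ ∀ S ∈ F, cut G S = d S := by
  obtain ⟨G, h1, _, h3, h4, h5⟩ := FW.exists_graph (univ : Finset V).card d univ F le_rfl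
    ⟨h.zero, h.symm, fun S => by rw [inter_univ], fun X Y hXY => h.merges hXY⟩ (by
      intro S hS T hT
      rw [univ_inter, univ_inter, ← disjoint_iff_inter_eq_empty, univ_subset_iff]
      exact hF S hS T hT)
  exact ⟨G, h1, h3, h4, h5⟩

/-- A function on an abelian group with the triangle and the quadratic inequalities. -/
structure CritG {G : Type} [AddCommGroup G] (f : G → K) : Prop where
  zero : f 0 = 0
  even : ∀ x, f (-x) = f x
  triangle : ∀ x y, f (x + y) ≤ f x + f y
  gap : ∀ x y s, 2 * f (x + y) * f (s + x) ≤ f (x + y) * (f x + f y - f (x + y)) +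
    (f x - f y + f (x + y)) * f (s + x + y) + (f y - f x + f (x + y)) * f s

theorem CritG.crit {G : Type} [AddCommGroup G] {f : G → K} (h : CritG f) (w : V → G)
    (hw : ∑ i, w i = 0) : Crit (fun S : Finset V => f (∑ i ∈ S, w i)) where
  zero := by
    show f (∑ i ∈ (∅ : Finset V), w i) = 0
    rw [sum_empty, h.zero]
  symm := fun S => by
    have : ∑ i ∈ Sᶜ, w i = - ∑ i ∈ S, w i := by
      rw [eq_neg_iff_add_eq_zero, sum_compl_add_sum, hw]
    show f (∑ i ∈ Sᶜ, w i) = f (∑ i ∈ S, w i)
    rw [this, h.even]
  triangle := fun A B hAB => by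
    show f (∑ i ∈ A ∪ B, w i) ≤ _
    rw [sum_union hAB]
    exact h.triangle _ _
  gap := fun A B C D hF => by
    obtain ⟨_, _, _, _, hAB, hAC, hAD, hBC, hBD, hCD, hU⟩ := hF
    have hsum : ∑ i ∈ A, w i + ∑ i ∈ B, w i + ∑ i ∈ C, w i + ∑ i ∈ D, w i = 0 := by
      rw [← sum_union hAB, ← sum_union (disjoint_union_left.2 ⟨hAC, hBC⟩),
        ← sum_union (disjoint_union_left.2 ⟨disjoint_union_left.2 ⟨hAD, hBD⟩, hCD⟩), hU, hw]
    simp only [sum_union hAB, sum_union hAC, sum_union hAD]
    set x := ∑ i ∈ A, w i
    set y := ∑ i ∈ B, w i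
    set s := ∑ i ∈ C, w i
    set t := ∑ i ∈ D, w i
    have g := h.gap x y t
    have e1 : f (t + x + y) = f s := by
      rw [← h.even s]
      congr 1
      rw [eq_neg_iff_add_eq_zero, ← hsum]
      abel
    have e2 : f (t + x) = f (x + t) := by rw [add_comm]
    rw [e1, e2] at g
    nlinarith [g]

end Pool.Agent.NH46.FW
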