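import Mathlib

set_option autoImplicit false

/-!
# Cut functions of weighted graphs
-/

namespace Pool.Agent.NH46.FW

open Finset

variable {K : Type} [Field K] {V : Type} [Fintype V] [DecidableEq V]

/-- The cut function of a weighted graph. -/
def cut (G : V → V → K) (S : Finset V) : K := ∑ i, ∑ j, if i ∈ S ∧ j ∉ S then G i j else 0

theorem cut_eq (G : V → V → K) (S : Finset V) : cut G S = ∑ i ∈ S, ∑ j ∈ Sᶜ, G i j := by
  unfold cut
  rw [← sum_subset (subset_univ S)]
  · refine sum_congr rfl fun i hi => ?_
    rw [← sum_subset (subset_univ Sᶜ)]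
    · refine sum_congr rfl fun j hj => ?_
      rw [if_pos ⟨hi, mem_compl.1 hj⟩]
    · intro j _ hj
      rw [if_neg]
      rintro ⟨_, h⟩
      exact hj (mem_compl.2 h)
  · intro i _ hi
    refine sum_eq_zero fun j _ => ?_
    rw [if_neg]
    exact fun h => hi h.1

theorem cut_compl {G : V → V → K} (hG : ∀ i j, G i j = G j i) (S : Finset V) :
    cut G Sᶜ = cut G S := by
  unfold cut
  rw [sum_comm]
  refine sum_congr rfl fun i _ => sum_congr rfl fun j _ => ?_
  rw [hG j i]
  refine if_congr ?_ rfl rfl
  rw [mem_compl, mem_compl, not_not]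
  tauto

theorem cut_add (G H : V → V → K) (S : Finset V) :
    cut (fun i j => G i j + H i j) S = cut G S + cut H S := by
  unfold cut
  rw [← sum_add_distrib]
  refine sum_congr rfl fun i _ => ?_
  rw [← sum_add_distrib]
  refine sum_congr rfl fun j _ => ?_
  split_ifs
  · rfl
  · rw [add_zero]

theorem cut_mul (p : K) (G : V → V → K) (S : Finset V) :
    cut (fun i j => p * G i j) S = p * cut G S := by
  unfold cut
  rw [mul_sum]
  refine sum_congr rfl fun i _ => ?_
  rw [mul_sum]
  refine sum_congr rfl fun j _ => ?_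
  split_ifs
  · rfl
  · rw [mul_zero]

theorem cut_sum {ι : Type} (s : Finset ι) (G : ι → V → V → K) (S : Finset V) :
    cut (fun i j => ∑ t ∈ s, G t i j) S = ∑ t ∈ s, cut (G t) S := by
  unfold cut
  symm
  rw [sum_comm]
  refine sum_congr rfl fun i _ => ?_
  rw [sum_comm]
  refine sum_congr rfl fun j _ => ?_
  split_ifs
  · rfl
  · rw [sum_const_zero]

theorem cut_perm (σ : Equiv.Perm V) (G : V → V → K) (S : Finset V) :
    cut (fun i j => G (σ i) (σ j)) S = cut G (S.map σ.toEmbedding) := by
  unfold cut
  rw [← Equiv.sum_comp σ (fun i => ∑ j, if i ∈ S.map σ.toEmbedding ∧ j ∉ S.map σ.toEmbedding then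
    G i j else 0)]
  refine sum_congr rfl fun i _ => ?_
  rw [← Equiv.sum_comp σ (fun j => if σ i ∈ S.map σ.toEmbedding ∧ j ∉ S.map σ.toEmbedding then
    G (σ i) j else 0)]
  refine sum_congr rfl fun j _ => ?_
  refine if_congr ?_ rfl rfl
  simp

/-- The graph with one edge. -/
def edge (x y i j : V) : K := if (i = x ∧ j = y) ∨ (i = y ∧ j = x) then 1 else 0

omit [Fintype V] in
theorem edge_symm (x y i j : V) : (edge x y i j : K) = edge x y j i := by
  unfold edge
  refine if_congr ?_ rfl rfl
  tauto

theorem cut_edge {x y : V} (hxy : x ≠ y) (S : Finset V) :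
    cut (edge x y : V → V → K) S = if (x ∈ S ↔ y ∈ S) then 0 else 1 := by
  have h1 : ∀ i j : V, (if i ∈ S ∧ j ∉ S then (edge x y i j : K) else 0)
      = (if i = x then if j = y then (if x ∈ S ∧ y ∉ S then (1 : K) else 0) else 0 else 0)
        + (if i = y then if j = x then (if y ∈ S ∧ x ∉ S then (1 : K) else 0) else 0 else 0) := by
    intro i j
    unfold edge
    by_cases hi : i = x
    · subst hi
      by_cases hj : j = y
      · subst hj
        simp [hxy]
      · simp [hj, hxy]
    · by_cases hi' : i = y
      · subst hi'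
        by_cases hj : j = x
        · subst hj
          simp [hi]
        · simp [hi, hj]
      · simp [hi, hi']
  unfold cut
  simp only [h1, sum_add_distrib]
  simp only [sum_ite_eq', mem_univ, if_true, sum_ite_irrel, sum_const_zero]
  by_cases hx : x ∈ S <;> by_cases hy : y ∈ S <;> simp [hx, hy]

theorem cut_supp {G : V → V → K} (hG : ∀ i j, G i j = G j i) {A : Finset V}
    (hA : ∀ i, i ∉ A → ∀ j, G i j = 0) (S : Finset V) : cut G S = cut G (S ∩ A) := by
  unfold cut
  refine sum_congr rfl fun i _ => sum_congr rfl fun j _ => ?_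
  by_cases hi : i ∈ A
  · by_cases hj : j ∈ A
    · refine if_congr ?_ rfl rfl
      rw [mem_inter, mem_inter]
      tauto
    · have h : G i j = 0 := by rw [hG, hA j hj]
      rw [h, ite_self, ite_self]
  · have h : G i j = 0 := hA i hi j
    rw [h, ite_self, ite_self]

theorem cut_empty (G : V → V → K) : cut G ∅ = 0 := by
  unfold cut
  simp

theorem cut_zero (S : Finset V) : cut (fun _ _ => (0 : K)) S = 0 := by
  unfold cut
  simp

end Pool.Agent.NH46.FW
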