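import Pool.Agent.NH46.FW.Hit

set_option autoImplicit false
set_option linter.unusedSectionVars false

/-!
# The functions `(1 - q ^ s) (1 - q ^ (M - s))` on `ℤ / M`
-/

namespace Pool.Agent.NH46.FW

open Finset

variable {K : Type} [Field K] [LinearOrder K] [IsStrictOrderedRing K]

/-- `(1 - q ^ s) (1 - q ^ (M - s))`. -/
def qf (M : ℕ) (q : K) (s : ℕ) : K := (1 - q ^ s) * (1 - q ^ (M - s))

theorem qf_zero (M : ℕ) (q : K) : qf M q 0 = 0 := by
  unfold qf
  rw [pow_zero, sub_self, zero_mul]

theorem qf_top (M : ℕ) (q : K) : qf M q M = 0 := by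
  unfold qf
  rw [Nat.sub_self, pow_zero, sub_self, mul_zero]

theorem qf_step (M : ℕ) (q : K) (k : ℕ) (h1 : 1 ≤ k) (h2 : k < M) :
    q * (2 * qf M q k - qf M q (k + 1) - qf M q (k - 1)) =
      (1 - q) ^ 2 * (1 + q ^ M - qf M q k) := by
  obtain ⟨j, rfl⟩ : ∃ j, k = j + 1 := ⟨k - 1, by omega⟩
  obtain ⟨l, rfl⟩ : ∃ l, M = j + 1 + (l + 1) := ⟨M - (j + 2), by omega⟩
  unfold qf
  have e1 : j + 1 + (l + 1) - (j + 1) = l + 1 := by omega
  have e2 : j + 1 + (l + 1) - (j + 1 + 1) = l := by omega
  have e3 : j + 1 + (l + 1) - (j + 1 - 1) = l + 2 := by omega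
  have e4 : j + 1 - 1 = j := by omega
  rw [e1, e2, e3, e4]
  ring

theorem val_add_one {M : ℕ} [NeZero M] (x : ZMod M) :
    (x + 1).val = x.val + 1 ∨ ((x + 1).val = 0 ∧ x.val + 1 = M) := by
  have h := ZMod.val_lt x
  by_cases hM : M = 1
  · subst hM
    right
    have h1 := ZMod.val_lt (x + 1)
    omega
  · have hM1 : 1 < M := by
      have := NeZero.ne M
      omega
    have : Fact (1 < M) := ⟨hM1⟩
    have h1 := ZMod.val_add x 1
    rw [ZMod.val_one] at h1
    by_cases h2 : x.val + 1 < M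
    · left
      rw [h1, Nat.mod_eq_of_lt h2]
    · right
      have h3 : x.val + 1 = M := by omega
      rw [h1, h3, Nat.mod_self]
      exact ⟨rfl, rfl⟩

theorem qf_add_one {M : ℕ} [NeZero M] (q : K) (x : ZMod M) :
    qf M q (x + 1).val = qf M q (x.val + 1) := by
  rcases val_add_one x with h | ⟨h, h'⟩
  · rw [h]
  · rw [h, h', qf_zero, qf_top]

theorem qf_sub_one {M : ℕ} [NeZero M] (q : K) {x : ZMod M} (hx : x ≠ 0) :
    qf M q (x - 1).val = qf M q (x.val - 1) := by
  rcases val_add_one (x - 1) with h | ⟨h, h'⟩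
  · rw [sub_add_cancel] at h
    rw [h, Nat.add_sub_cancel]
  · rw [sub_add_cancel] at h
    exact absurd ((ZMod.val_eq_zero x).1 h) hx

theorem qf_hitting (M : ℕ) [NeZero M] (q : K) (h0 : 0 ≤ q) (h1 : q < 1) :
    ∃ c, IsHitting (fun g : ZMod M => q * (if g = 1 then 1 else 0) + q * (if g = -1 then 1 else 0)
      + (1 - q) ^ 2 / M) (fun x => qf M q x.val) c := by
  have hM : (0 : K) < M := by
    have : 0 < M := Nat.pos_of_ne_zero (NeZero.ne M)
    exact_mod_cast this
  refine ⟨(1 - q) ^ 2 * ((∑ x : ZMod M, (1 + q ^ M - qf M q x.val)) / M), ?_, ?_, ?_, ?_, ?_⟩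
  · intro g
    have a1 : (0 : K) ≤ if g = 1 then 1 else 0 := by split_ifs <;> norm_num
    have a2 : (0 : K) ≤ if g = -1 then 1 else 0 := by split_ifs <;> norm_num
    positivity
  · intro g
    have e1 : (-g = 1) ↔ (g = -1) := by
      constructor
      · intro h; rw [← h, neg_neg]
      · intro h; rw [h, neg_neg]
    have e2 : (-g = -1) ↔ (g = 1) := neg_inj
    simp only [e1, e2]
    ring
  · have a0 : 0 < (1 - q) ^ 2 := pow_pos (sub_pos.2 h1) 2
    refine mul_pos a0 (div_pos ?_ hM)
    apply sum_pos'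
    · intro x _
      unfold qf
      have e : q ^ M = q ^ x.val * q ^ (M - x.val) := by
        rw [← pow_add]
        congr 1
        have := ZMod.val_lt x
        omega
      rw [e]
      have b1 : 0 ≤ q ^ x.val := pow_nonneg h0 _
      have b2 : 0 ≤ q ^ (M - x.val) := pow_nonneg h0 _
      linarith
    · refine ⟨0, mem_univ _, ?_⟩
      rw [ZMod.val_zero, qf_zero]
      have : 0 ≤ q ^ M := pow_nonneg h0 _
      linarith
  · show qf M q (0 : ZMod M).val = 0
    rw [ZMod.val_zero, qf_zero]
  · intro x hx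
    have hk1 : 1 ≤ x.val := Nat.one_le_iff_ne_zero.2 fun h => hx ((ZMod.val_eq_zero x).1 h)
    have hk2 := ZMod.val_lt x
    have st := qf_step M q x.val hk1 hk2
    unfold lap
    have e1 : ∀ g : ZMod M, (q * (if g = 1 then 1 else 0) + q * (if g = -1 then 1 else 0)
        + (1 - q) ^ 2 / M) * (qf M q x.val - qf M q (x + g).val)
        = (if g = 1 then q * (qf M q x.val - qf M q (x + 1).val) else 0)
        + (if g = -1 then q * (qf M q x.val - qf M q (x - 1).val) else 0)
        + (1 - q) ^ 2 / M * ((1 + q ^ M - qf M q (x + g).val) - (1 + q ^ M - qf M q x.val)) := by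
      intro g
      by_cases hg1 : g = 1
      · by_cases hg2 : g = -1
        · have e : x + g = x - 1 := by rw [hg2]; ring
          have e' : x + 1 = x - 1 := by rw [← e, hg1]
          rw [if_pos hg1, if_pos hg2, if_pos hg1, if_pos hg2, e, e']
          ring
        · rw [if_pos hg1, if_neg hg2, if_pos hg1, if_neg hg2, hg1]
          ring
      · by_cases hg2 : g = -1
        · have e : x + g = x - 1 := by rw [hg2]; ring
          rw [if_neg hg1, if_pos hg2, if_neg hg1, if_pos hg2, e]
          ring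
        · rw [if_neg hg1, if_neg hg2, if_neg hg1, if_neg hg2]
          ring
    rw [sum_congr rfl fun g _ => e1 g, sum_add_distrib, sum_add_distrib, sum_ite_eq', if_pos
      (mem_univ _), sum_ite_eq', if_pos (mem_univ _), qf_add_one, qf_sub_one q hx, ← mul_sum,
      sum_sub_distrib, sum_const, card_univ, ZMod.card, nsmul_eq_mul]
    have e2 : ∑ g : ZMod M, (1 + q ^ M - qf M q (x + g).val)
        = ∑ g : ZMod M, (1 + q ^ M - qf M q g.val) :=
      Equiv.sum_comp (Equiv.addLeft x) (fun g : ZMod M => 1 + q ^ M - qf M q g.val)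
    rw [e2]
    have e3 : q * (qf M q x.val - qf M q (x.val + 1)) + q * (qf M q x.val - qf M q (x.val - 1))
        = (1 - q) ^ 2 * (1 + q ^ M - qf M q x.val) := by
      rw [← st]; ring
    rw [e3]
    field_simp
    ring

theorem qf_critG (M : ℕ) [NeZero M] (q : K) (h0 : 0 ≤ q) (h1 : q ≤ 1) :
    CritG (fun x : ZMod M => qf M q x.val) := by
  rcases eq_or_lt_of_le h1 with h | h
  · have e : ∀ s, qf M q s = 0 := by
      intro s
      unfold qf
      rw [h, one_pow, sub_self, zero_mul]
    constructor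
    · exact e _
    · intro x; rw [e, e]
    · intro x y; rw [e, e, e]; simp
    · intro x y s
      simp only [e]
      simp
  · obtain ⟨c, hc⟩ := qf_hitting M q h0 h
    exact hc.critG

end Pool.Agent.NH46.FW
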