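import Pool.Agent.NH46.FW.Crit

set_option autoImplicit false
set_option linter.unusedSectionVars false

/-!
# Hitting times of random walks on finite abelian groups
-/

namespace Pool.Agent.NH46.FW

open Finset

variable {K : Type} [Field K] [LinearOrder K] [IsStrictOrderedRing K]
  {G : Type} [AddCommGroup G] [Fintype G] [DecidableEq G]

/-- Minus the generator of the random walk which jumps from `x` to `x + g` at the rate `C g`. -/
def lap (C f : G → K) (x : G) : K := ∑ g, C g * (f x - f (x + g))

/-- `f x` is a constant times the expected time at which the random walk started at `x` hits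
`0`. -/
structure IsHitting (C f : G → K) (c : K) : Prop where
  nonneg : ∀ g, 0 ≤ C g
  symm : ∀ g, C (-g) = C g
  pos : 0 < c
  zero : f 0 = 0
  eq : ∀ x, x ≠ 0 → lap C f x = c

/-- Every nonempty set closed under the jumps contains `0`. -/
def Conn (C : G → K) : Prop :=
  ∀ N : Finset G, N.Nonempty → (∀ x ∈ N, ∀ g, 0 < C g → x + g ∈ N) → (0 : G) ∈ N

theorem sum_shift {N : Finset G} {g : G} (h : ∀ x ∈ N, x + g ∈ N) (f : G → K) :
    ∑ x ∈ N, f (x + g) = ∑ x ∈ N, f x := by
  have h1 : N.map (addRightEmbedding g) = N := by
    apply eq_of_subset_of_card_le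
    · intro y hy
      rw [mem_map] at hy
      obtain ⟨x, hx, rfl⟩ := hy
      exact h x hx
    · rw [card_map]
  calc ∑ x ∈ N, f (x + g) = ∑ x ∈ N.map (addRightEmbedding g), f x := by
        rw [sum_map]; rfl
    _ = ∑ x ∈ N, f x := by rw [h1]

omit [IsStrictOrderedRing K] in
theorem sum_lap (C f : G → K) : ∑ x, lap C f x = 0 := by
  unfold lap
  rw [sum_comm]
  refine sum_eq_zero fun g _ => ?_
  have h1 : ∑ x, f (x + g) = ∑ x, f x := Equiv.sum_comp (Equiv.addRight g) f
  rw [← mul_sum, sum_sub_distrib, h1, sub_self, mul_zero]

theorem IsHitting.conn {C f : G → K} {c : K} (h : IsHitting C f c) : Conn C := by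
  intro N hN hcl
  by_contra h0
  have h1 : ∑ x ∈ N, lap C f x = 0 := by
    unfold lap
    rw [sum_comm]
    refine sum_eq_zero fun g _ => ?_
    rw [← mul_sum]
    by_cases hg : 0 < C g
    · rw [sum_sub_distrib, sum_shift (fun x hx => hcl x hx g hg), sub_self, mul_zero]
    · have : C g = 0 := le_antisymm (not_lt.1 hg) (h.nonneg g)
      rw [this, zero_mul]
  have h2 : ∑ x ∈ N, lap C f x = N.card * c := by
    rw [sum_congr rfl fun x hx => h.eq x fun hx0 => h0 (hx0 ▸ hx), sum_const, nsmul_eq_mul]
  rw [h1] at h2
  have h3 : (0 : K) < N.card := by exact_mod_cast card_pos.2 hN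
  have := mul_pos h3 h.pos
  linarith

theorem conn_of_closure {C : G → K} (h : AddSubgroup.closure {g : G | 0 < C g} = ⊤) :
    Conn C := by
  intro N hN hcl
  have key : ∀ g : G, g ∈ AddSubgroup.closure {g : G | 0 < C g} → ∀ x ∈ N, x + g ∈ N := by
    intro g hg
    induction hg using AddSubgroup.closure_induction with
    | mem g hg => exact fun x hx => hcl x hx g hg
    | zero => intro x hx; rw [add_zero]; exact hx
    | add a b _ _ ha hb => intro x hx; rw [← add_assoc]; exact hb _ (ha x hx)
    | neg a _ ha =>
      intro x hx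
      have h1 : N.map (addRightEmbedding a) = N := by
        apply eq_of_subset_of_card_le
        · intro y hy
          rw [mem_map] at hy
          obtain ⟨x, hx, rfl⟩ := hy
          exact ha x hx
        · rw [card_map]
      rw [← h1, mem_map] at hx
      obtain ⟨y, hy, hyx⟩ := hx
      have : x + -a = y := by
        rw [← hyx]
        show y + a + -a = y
        abel
      rw [this]
      exact hy
  obtain ⟨x, hx⟩ := hN
  have := key (-x) (by rw [h]; exact AddSubgroup.mem_top _) x hx
  rw [add_neg_cancel] at this
  exact this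

/-- The minimum principle. -/
theorem minp {C : G → K} (hC : ∀ g, 0 ≤ C g) (hconn : Conn C) {Z : Set G} (h0 : (0 : G) ∈ Z)
    {H : G → K} (hH : ∀ s, s ∉ Z → 0 ≤ lap C H s) (hZ : ∀ s ∈ Z, 0 ≤ H s) (s : G) : 0 ≤ H s := by
  by_contra hs
  rw [not_le] at hs
  obtain ⟨t, -, ht⟩ := exists_min_image (univ : Finset G) H ⟨s, mem_univ s⟩
  have ht0 : H t < 0 := lt_of_le_of_lt (ht s (mem_univ s)) hs
  have h1 := hconn (univ.filter fun x => H x = H t) ⟨t, by simp⟩ (by
    intro x hx g hg
    rw [mem_filter] at hx ⊢
    refine ⟨mem_univ _, ?_⟩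
    have hxZ : x ∉ Z := fun h => not_le.2 ht0 (hx.2 ▸ hZ x h)
    have h2 := hH x hxZ
    unfold lap at h2
    have h3 : ∀ g ∈ (univ : Finset G), C g * (H x - H (x + g)) ≤ 0 := fun g _ =>
      mul_nonpos_of_nonneg_of_nonpos (hC g) (by
        rw [hx.2]
        linarith [ht (x + g) (mem_univ _)])
    have h4 := (sum_eq_zero_iff_of_nonpos h3).1 (le_antisymm (sum_nonpos h3) h2) g (mem_univ g)
    rcases mul_eq_zero.1 h4 with h5 | h5
    · exact absurd h5 hg.ne'
    · rw [← hx.2]; linarith)
  rw [mem_filter] at h1
  have := hZ 0 h0
  rw [h1.2] at this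
  linarith

omit [LinearOrder K] [IsStrictOrderedRing K] [DecidableEq G] in
theorem lap_lin (C H₁ H₂ : G → K) (a b e : K) (x : G) :
    lap C (fun s => e + a * H₁ s - b * H₂ s) x = a * lap C H₁ x - b * lap C H₂ x := by
  unfold lap
  rw [mul_sum, mul_sum, ← sum_sub_distrib]
  refine sum_congr rfl fun g _ => ?_
  ring

omit [LinearOrder K] [IsStrictOrderedRing K] [DecidableEq G] in
theorem lap_shift (C f : G → K) (x s : G) : lap C (fun t => f (t - x)) s = lap C f (s - x) := by
  unfold lap
  refine sum_congr rfl fun g _ => ?_
  have : s + g - x = s - x + g := by abel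
  show C g * (f (s - x) - f (s + g - x)) = _
  rw [this]

omit [LinearOrder K] [IsStrictOrderedRing K] [DecidableEq G] in
theorem lap_neg {C : G → K} (hC : ∀ g, C (-g) = C g) (f : G → K) (s : G) :
    lap C (fun t => f (-t)) s = lap C f (-s) := by
  unfold lap
  rw [← Equiv.sum_comp (Equiv.neg G)]
  refine sum_congr rfl fun g _ => ?_
  have : -(s + (-g)) = -s + g := by abel
  show C (-g) * (f (-s) - f (-(s + (-g)))) = _
  rw [this, hC]

theorem unique {C f f' : G → K} {c : K} (h : IsHitting C f c) (h' : IsHitting C f' c) :
    f = f' := by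
  have key : ∀ f f' : G → K, IsHitting C f c → IsHitting C f' c → ∀ s, 0 ≤ f s - f' s := by
    intro f f' h h'
    apply minp h.nonneg h.conn (Z := {0}) rfl
    · intro s hs
      have hs' : s ≠ 0 := hs
      have e := lap_lin C f f' 1 1 0 s
      simp only [zero_add, one_mul] at e
      rw [e, h.eq s hs', h'.eq s hs', sub_self]
    · intro s hs
      rw [Set.mem_singleton_iff] at hs
      rw [hs, h.zero, h'.zero, sub_self]
  funext s
  have h1 := key f f' h h' s
  have h2 := key f' f h' h s
  linarith

theorem IsHitting.even {C f : G → K} {c : K} (h : IsHitting C f c) (x : G) : f (-x) = f x := by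
  have h' : IsHitting C (fun s => f (-s)) c :=
    ⟨h.nonneg, h.symm, h.pos, by
      show f (-0) = 0
      rw [neg_zero, h.zero], fun s hs => by
      rw [lap_neg h.symm, h.eq]
      exact neg_ne_zero.2 hs⟩
  exact congrFun (unique h' h) x

theorem IsHitting.lap_le {C f : G → K} {c : K} (h : IsHitting C f c) (x : G) :
    lap C f x ≤ c := by
  by_cases hx : x = 0
  · have h1 := sum_lap C f
    rw [← add_sum_erase univ _ (mem_univ (0 : G))] at h1
    have h2 : 0 ≤ ∑ x ∈ univ.erase (0 : G), lap C f x :=
      sum_nonneg fun y hy => by rw [h.eq y (ne_of_mem_erase hy)]; exact h.pos.le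
    rw [hx]
    linarith [h.pos]
  · exact (h.eq x hx).le

theorem gamma_lap (C f : G → K) (x s : G) :
    lap C (fun t => f x + f t - f (t - x)) s = lap C f s - lap C f (s - x) := by
  have e := lap_lin C f (fun t => f (t - x)) 1 1 (f x) s
  simp only [one_mul] at e
  rw [e, lap_shift]

theorem IsHitting.gamma_nonneg {C f : G → K} {c : K} (h : IsHitting C f c) (x s : G) :
    0 ≤ f x + f s - f (s - x) := by
  refine minp h.nonneg h.conn (Z := {0}) rfl (H := fun t => f x + f t - f (t - x)) ?_ ?_ s
  · intro s hs
    have hs' : s ≠ 0 := hs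
    rw [gamma_lap, h.eq s hs']
    linarith [h.lap_le (s - x)]
  · intro s hs
    rw [Set.mem_singleton_iff] at hs
    rw [hs, h.zero, zero_sub, h.even]
    linarith

theorem IsHitting.critG {C f : G → K} {c : K} (h : IsHitting C f c) : CritG f where
  zero := h.zero
  even := h.even
  triangle := fun x y => by
    have := h.gamma_nonneg (-x) y
    rw [sub_neg_eq_add, h.even, add_comm y x] at this
    linarith
  gap := fun x y s => by
    set z := x + y with hz
    have key : ∀ t, 0 ≤ (0 : K) + (2 * f z) * (f x + f t - f (t - x))
        - (f x + f z - f y) * (f z + f t - f (t - z)) := by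
      intro t
      refine minp h.nonneg h.conn (Z := {0, z}) (by simp) (H := fun t => (0 : K) +
        (2 * f z) * (f x + f t - f (t - x)) - (f x + f z - f y) * (f z + f t - f (t - z))) ?_ ?_ t
      · intro t ht
        rw [Set.mem_insert_iff, Set.mem_singleton_iff, not_or] at ht
        rw [lap_lin C (fun t => f x + f t - f (t - x)) (fun t => f z + f t - f (t - z)),
          gamma_lap, gamma_lap, h.eq t ht.1, h.eq (t - z) (sub_ne_zero.2 ht.2), sub_self, mul_zero,
          sub_zero]
        apply mul_nonneg _ (by linarith [h.lap_le (t - x)])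
        have := h.gamma_nonneg z z
        rw [sub_self, h.zero] at this
        linarith
      · intro t ht
        rw [Set.mem_insert_iff, Set.mem_singleton_iff] at ht
        rcases ht with ht | ht
        · rw [ht, h.zero, zero_sub, zero_sub, h.even, h.even]
          apply le_of_eq
          ring
        · have e1 : z - x = y := by rw [hz]; abel
          rw [ht, e1, sub_self, h.zero]
          apply le_of_eq
          ring
    have k := key (-s)
    have e1 : f (-s - x) = f (s + x) := by
      rw [← h.even]
      congr 1
      abel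
    have e2 : f (-s - z) = f (s + x + y) := by
      rw [← h.even, hz]
      congr 1
      abel
    rw [e1, e2, h.even] at k
    nlinarith [k]

/-- Existence. -/
theorem exists_hitting {C : G → K} (h0 : ∀ g, 0 ≤ C g) (hs : ∀ g, C (-g) = C g)
    (h : AddSubgroup.closure {g : G | 0 < C g} = ⊤) : ∃ f, IsHitting C f 1 := by
  have hconn := conn_of_closure h
  set T : (G → K) →ₗ[K] (G → K) :=
    { toFun := fun f x => if x = 0 then f 0 else lap C f x
      map_add' := by
        intro f f'
        funext x
        show (if x = 0 then f 0 + f' 0 else lap C (f + f') x)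
          = (if x = 0 then f 0 else lap C f x) + (if x = 0 then f' 0 else lap C f' x)
        split_ifs
        · rfl
        · unfold lap
          rw [← sum_add_distrib]
          refine sum_congr rfl fun g _ => ?_
          simp only [Pi.add_apply]
          ring
      map_smul' := by
        intro a f
        funext x
        show (if x = 0 then a * f 0 else lap C (a • f) x)
          = a * (if x = 0 then f 0 else lap C f x)
        split_ifs
        · rfl
        · unfold lap
          rw [mul_sum]
          refine sum_congr rfl fun g _ => ?_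
          simp only [Pi.smul_apply, smul_eq_mul]
          ring } with hT
  have hTx : ∀ f x, T f x = if x = 0 then f 0 else lap C f x := fun f x => rfl
  have hinj : Function.Injective T := by
    rw [← LinearMap.ker_eq_bot, LinearMap.ker_eq_bot']
    intro f hf
    have hf0 : ∀ x, (if x = 0 then f 0 else lap C f x) = 0 := fun x => by
      rw [← hTx, hf]; rfl
    have f0 : f 0 = 0 := by
      have := hf0 0
      rwa [if_pos rfl] at this
    have f1 : ∀ x, x ≠ 0 → lap C f x = 0 := fun x hx => by
      have := hf0 x
      rwa [if_neg hx] at this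
    have a1 : ∀ s, 0 ≤ f s := by
      apply minp h0 hconn (Z := {0}) rfl
      · intro s hs'
        rw [f1 s hs']
      · intro s hs'
        rw [Set.mem_singleton_iff] at hs'
        rw [hs', f0]
    have a2 : ∀ s, 0 ≤ (0 : K) + 0 * f s - 1 * f s := by
      apply minp h0 hconn (Z := {0}) rfl
      · intro s hs'
        rw [lap_lin C f f 0 1 0 s, f1 s hs']
        simp
      · intro s hs'
        rw [Set.mem_singleton_iff] at hs'
        rw [hs', f0]
        simp
    funext s
    have := a2 s
    have := a1 s
    show f s = 0
    linarith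
  obtain ⟨f, hf⟩ := LinearMap.injective_iff_surjective.1 hinj (fun x => if x = 0 then 0 else 1)
  refine ⟨f, h0, hs, one_pos, ?_, fun x hx => ?_⟩
  · have := congrFun hf 0
    rw [hTx, if_pos rfl, if_pos rfl] at this
    exact this
  · have := congrFun hf x
    rw [hTx, if_neg hx, if_neg hx] at this
    exact this

end Pool.Agent.NH46.FW
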