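import Pool.Agent.NH37.AF.Deg
import Pool.Agent.NH46.FW.Exp

set_option autoImplicit false

/-!
# Semiample divisors on `M̄_{0,n}` from quadratic inequalities and from random walks

A symmetric function `d` on the subsets of the marks (`d Sᶜ = d S`, `d ∅ = 0`) gives the divisor
`D(d) = ∑ d {i} • ψ_i - ∑ d S • δ_S` on `M̄_{0,n}`; every divisor is of this form.  Its degree on the
F-curve of a partition `A, B, C, D` of the marks is

  `F = d A + d B + d C + d D - d (A ∪ B) - d (A ∪ C) - d (A ∪ D)`.

The F-conjecture says that `D(d)` is nef if all the `F` are nonnegative.  Here the linear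
inequalities `F ≥ 0` are replaced by quadratic ones,

  `d (A ∪ B) F ≥ |(d A - d B) (d D - d C) - d (A ∪ B) (d (A ∪ C) - d (A ∪ D))|`,   (∗)

together with the triangle inequalities `d (A ∪ B) ≤ d A + d B`, and then `D(d)`, and also every
combination with nonnegative coefficients of such divisors, is semiample, over every field.

The inequalities (∗) are satisfied by the hitting times of random walks: let `G` be a finite abelian
group, and let a particle jump from `x` to `x + g` at the rate `C g = C (-g) ≥ 0`.  Let `f x` be the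
expected time at which the particle, started at `x`, hits `0` (this is, up to a factor, the effective
resistance between `0` and `x` in the network on `G` with the conductances `C`).  Then for all
weights `w_i ∈ G` of the marks with `∑ w_i = 0` the divisor

  `∑ f (w_i) • ψ_i - ∑ f (∑_{i ∈ S} w_i) • δ_S`

satisfies (∗), so it is semiample.  For the simple random walk on `ℤ / M`, `f x = x (M - x) / 2`, this
is a divisor of conformal blocks of level one for `sl_M`; for the walk which jumps to a uniform
random point it is `K + Δ`.  A mixture of both gives the divisors with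
`f x = (1 - q ^ x) (1 - q ^ (M - x))`, `0 ≤ q ≤ 1` (this is `qf_critG` in `NH46/FW/Exp`).  With `M = g`
and all weights equal to one this is the pullback, under the flag map, of the divisor
`a λ - b₀ δ₀ - ∑ (1 - q ^ i) (1 - q ^ (g - i)) δ_i` on `M̄_g`.

Proof.  Let two marks `x, y` be replaced by one, `z = {x, y}`, and let the divisor on
`M̄_{0,n-1}` obtained in this way be linearly equivalent to an effective sum of boundary divisors.
This means that there is a weighted graph on the `n - 1` marks whose degrees are the numbers `d {i}`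
and whose cuts are at least `d S`.  We split the vertex `z` in the two vertices `x, y`; every edge at
`z` is split in the ratio `p : 1 - p` and there is a new edge of weight `β` between `x` and `y`, where
`d {x} = β + p d {x, y}`, `d {y} = β + (1 - p) d {x, y}`.  The cuts of the new graph are large enough
if `d (S ∪ {x}) ≤ β + p d (S ∪ {x, y}) + (1 - p) d S`, and this is (∗).  If a point of `M̄_{0,n}` is
given then the marks can be merged in an order such that none of the boundary divisors through the
point is used.  For hitting times (∗) says `g(x, s) g(z, z) ≥ g(x, z) g(z, s)` for Green's function of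
the walk killed at `0`, and this follows from the minimum principle.
-/

namespace Pool.Agent.Results.MP_23e236_ag.RandomWalks

open Finset Pool.Agent.NH46.FW

variable {K : Type} [Field K] {n : ℕ}

/-- `c` is the family of coefficients of a divisor on `M̄_{0,n}`: it stands for the divisor class
`∑ c S • δ_S - ∑ i, c {i} • ψ_i`. -/
def IsDivisor (c : Finset (Fin n) → K) : Prop := c ∅ = 0 ∧ ∀ S, c Sᶜ = c S

/-- Linear equivalence: the difference is a combination, with coefficients `G i j = G j i`, of the
relations `∑ δ_S = ψ_i + ψ_j`, the sum over the `S` which contain `i` but not `j`. These generate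
all the relations between the `δ_S` and the `ψ_i`. -/
def LinEquiv (c u : Finset (Fin n) → K) : Prop :=
  ∃ G : Fin n → Fin n → K, (∀ i j, G i j = G j i) ∧ ∀ S, u S = c S + ∑ i ∈ S, ∑ j ∈ Sᶜ, G i j

/-- The boundary divisors `δ_S`, `S ∈ F`, of `M̄_{0,n}` have a common point if and only if this
holds. -/
def Compatible (F : Set (Finset (Fin n))) : Prop :=
  ∀ S ∈ F, ∀ T ∈ F, S ⊆ T ∨ T ⊆ S ∨ Disjoint S T ∨ S ∪ T = univ

/-- For every point of `M̄_{0,n}` the divisor is linearly equivalent to an effective sum of boundary
divisors that do not contain the point. (`F` is the set of the boundary divisors through the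
point.) -/
def IsSemiample [LinearOrder K] (c : Finset (Fin n) → K) : Prop :=
  ∀ F : Set (Finset (Fin n)), Compatible F →
    ∃ u : Finset (Fin n) → K, IsDivisor u ∧ LinEquiv c u ∧ (∀ i, u {i} = 0) ∧ (∀ S, 0 ≤ u S) ∧
      ∀ S ∈ F, u S = 0

theorem cone [LinearOrder K] [IsStrictOrderedRing K] {ι : Type} [Fintype ι]
    (d : ι → Finset (Fin n) → K) (a : ι → K) (ha : ∀ t, 0 ≤ a t) (hd : ∀ t, Crit (d t)) :
    IsSemiample (fun S => - ∑ t, a t * d t S) := by
  intro F hF
  choose G h1 h2 h3 h4 using fun t => (hd t).exists_graph F hF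
  have hcut : ∀ S, cut (fun i j => ∑ t, a t * G t i j) S = ∑ t, a t * cut (G t) S := by
    intro S
    rw [cut_sum]
    exact sum_congr rfl fun t _ => cut_mul _ _ _
  have hsym : ∀ i j, (∑ t, a t * G t i j) = ∑ t, a t * G t j i := fun i j =>
    sum_congr rfl fun t _ => by rw [h1]
  have hu : ∀ S, (fun S => cut (fun i j => ∑ t, a t * G t i j) S - ∑ t, a t * d t S) S
      = ∑ t, a t * (cut (G t) S - d t S) := by
    intro S
    show cut (fun i j => ∑ t, a t * G t i j) S - ∑ t, a t * d t S = _
    rw [hcut, ← sum_sub_distrib]
    exact sum_congr rfl fun t _ => by ring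
  refine ⟨fun S => cut (fun i j => ∑ t, a t * G t i j) S - ∑ t, a t * d t S, ⟨?_, fun S => ?_⟩,
    ⟨fun i j => ∑ t, a t * G t i j, hsym, fun S => ?_⟩, fun i => ?_, fun S => ?_, fun S hS => ?_⟩
  · rw [hu]
    exact sum_eq_zero fun t _ => by rw [cut_empty, (hd t).zero, sub_zero, mul_zero]
  · rw [hu, hu]
    exact sum_congr rfl fun t _ => by rw [cut_compl (h1 t), (hd t).symm]
  · show cut (fun i j => ∑ t, a t * G t i j) S - ∑ t, a t * d t S = _
    rw [cut_eq]
    ring
  · rw [hu]
    exact sum_eq_zero fun t _ => by rw [h2 t i, sub_self, mul_zero]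
  · rw [hu]
    exact sum_nonneg fun t _ => mul_nonneg (ha t) (sub_nonneg.2 (h3 t S))
  · rw [hu]
    exact sum_eq_zero fun t _ => by rw [h4 t S hS, sub_self, mul_zero]

open Pool.Agent.NH37.FC in
theorem nef (c : Finset (Fin n) → ℝ) (hc : IsSemiample c) (r : ℕ) (B : Fin r → Finset (Fin n))
    (m : Finset (Fin r) → ℝ) (ψ : Fin r → ℝ) (hr : 4 ≤ r) (hB : IsPartition B)
    (hC : IsCurve m ψ) : 0 ≤ degree c B m ψ := by
  obtain ⟨u, -, ⟨G, hG, hu⟩, -, h0, h1⟩ := hc (Set.range B) (by
    rintro _ ⟨i, rfl⟩ _ ⟨j, rfl⟩
    by_cases hij : i = j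
    · subst hij; exact Or.inl Subset.rfl
    · exact Or.inr (Or.inr (Or.inl (hB.2.1 i j hij))))
  have key : degree c B m ψ = (∑ S : Finset (Fin r), u (S.biUnion B) * m S) / 2 := by
    refine Pool.Agent.NH37.AF.degree_gauge (G := fun i j => ∑ x ∈ B i, ∑ y ∈ B j, G x y)
      (v := fun S : Finset (Fin r) => u (S.biUnion B)) hC (by omega) ?_ ?_ ?_
    · intro i j
      rw [sum_comm]
      exact sum_congr rfl fun x _ => sum_congr rfl fun y _ => hG _ _
    · intro S
      show c (S.biUnion B) + Pool.Agent.NH37.AF.cut _ S = u (S.biUnion B)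
      rw [hu]
      congr 1
      unfold Pool.Agent.NH37.AF.cut
      rw [← Pool.Agent.NH37.AF.biUnion_compl hB, sum_biUnion fun i _ j _ hij => hB.2.1 i j hij]
      refine sum_congr rfl fun i _ => ?_
      rw [sum_comm]
      refine sum_congr rfl fun x _ => ?_
      rw [sum_biUnion fun i _ j _ hij => hB.2.1 i j hij]
    · intro i
      show u (({i} : Finset (Fin r)).biUnion B) = 0
      rw [singleton_biUnion]
      exact h1 _ ⟨i, rfl⟩
  rw [key]
  apply div_nonneg _ (by norm_num)
  exact sum_nonneg fun S _ => mul_nonneg (h0 _) (hC.1 S)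

open Pool.Agent.NH37.FC in
/-- **Semiample divisors from quadratic inequalities and from random walks.**

1. Let `d_t` be finitely many symmetric functions on the subsets of the `n` marks with the triangle
   inequalities and the quadratic inequalities `Crit`, and let `a_t ≥ 0` (in an ordered field).
   Then the sum of the divisors `a_t (∑ d_t {i} • ψ_i - ∑ d_t S • δ_S)` is semiample.
2. So it has nonnegative degree on all curves in all strata.
3. This applies to random walks: let `C ≥ 0` be an even function on a finite abelian group `G`, the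
   support of which generates `G`.  There is exactly one function `f` with `f 0 = 0` and
   `∑ C g (f x - f (x + g)) = 1` for all `x ≠ 0`, the expected time at which the random walk with the
   rates `C`, started at `x`, hits `0`.  If `w_1, …, w_n ∈ G` and `∑ w_i = 0` then
   `d S = f (∑_{i ∈ S} w_i)` satisfies `Crit`. -/
theorem result :
    (∀ (K : Type) [Field K] [LinearOrder K] [IsStrictOrderedRing K] (n : ℕ) (ι : Type) [Fintype ι]
      (d : ι → Finset (Fin n) → K) (a : ι → K), (∀ t, Crit (d t)) → (∀ t, 0 ≤ a t) →
        IsSemiample (fun S => - ∑ t, a t * d t S)) ∧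
    (∀ (n : ℕ) (c : Finset (Fin n) → ℝ), IsSemiample c →
      ∀ (r : ℕ) (B : Fin r → Finset (Fin n)) (m : Finset (Fin r) → ℝ) (ψ : Fin r → ℝ), 4 ≤ r →
        IsPartition B → IsCurve m ψ → 0 ≤ degree c B m ψ) ∧
    ∀ (K : Type) [Field K] [LinearOrder K] [IsStrictOrderedRing K] (G : Type) [AddCommGroup G]
      [Fintype G] (C : G → K), (∀ g, 0 ≤ C g) → (∀ g, C (-g) = C g) →
        (AddSubgroup.closure {g : G | 0 < C g} = ⊤ → ∃! f : G → K, IsHitting C f 1) ∧
        ∀ (f : G → K) (c : K), IsHitting C f c → ∀ (n : ℕ) (w : Fin n → G), ∑ i, w i = 0 →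
          Crit (fun S : Finset (Fin n) => f (∑ i ∈ S, w i)) := by
  classical
  refine ⟨?_, fun n c hc => nef c hc, ?_⟩
  · intro K _ _ _ n ι _ d a hd ha
    exact cone d a ha hd
  · intro K _ _ _ G _ _ C h0 hs
    refine ⟨fun hc => ?_, fun f c hf n w hw => hf.critG.crit w hw⟩
    obtain ⟨f, hf⟩ := exists_hitting h0 hs hc
    exact ⟨f, hf, fun f' hf' => unique hf' hf⟩

end Pool.Agent.Results.MP_23e236_ag.RandomWalks
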