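import Pool.Agent.NH46.FW.Circ

set_option autoImplicit false

/-!
# The rearrangement inequality of Riesz on a circle, by polarization (helper2)
-/

namespace Pool.Agent.NH46.FW

open Finset

namespace Rz

variable {M : ℕ} [NeZero M]

/-- the cosine of period `M` -/
noncomputable def cs (M : ℕ) (t : ℝ) : ℝ := Real.cos (2 * Real.pi * t / M)

theorem M_pos : (0 : ℝ) < M := by exact_mod_cast Nat.pos_of_ne_zero (NeZero.ne M)

theorem cs_per (t : ℝ) (n : ℤ) : cs M (t + M * n) = cs M t := by
  have hM : (M : ℝ) ≠ 0 := (M_pos (M := M)).ne'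
  unfold cs
  rw [show 2 * Real.pi * (t + M * n) / M = 2 * Real.pi * t / M + n * (2 * Real.pi) by
    field_simp, Real.cos_add_int_mul_two_pi]

omit [NeZero M] in
theorem cs_neg (t : ℝ) : cs M (-t) = cs M t := by
  unfold cs
  rw [show 2 * Real.pi * (-t) / M = -(2 * Real.pi * t / M) by ring, Real.cos_neg]

omit [NeZero M] in
theorem cs_abs (t : ℝ) : cs M |t| = cs M t := by
  rcases abs_choice t with h | h
  · rw [h]
  · rw [h, cs_neg]

theorem cs_lt {t t' : ℝ} (h0 : 0 ≤ t) (h : t < t') (h1 : 2 * t' ≤ M) : cs M t' < cs M t := by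
  have hM := M_pos (M := M)
  have hπ := Real.pi_pos
  unfold cs
  refine Real.cos_lt_cos_of_nonneg_of_le_pi (by positivity) ?_ ?_
  · rw [div_le_iff₀ hM]
    nlinarith
  · exact div_lt_div_of_pos_right (by nlinarith) hM

/-- the values -/
noncomputable def c (z : ZMod M) : ℝ := cs M (z.val : ℝ)

/-- the height function -/
noncomputable def g (z : ZMod M) : ℝ := cs M ((z.val : ℝ) - 1 / 4)

theorem val_int (n : ℤ) : ∃ k : ℤ, (((n : ZMod M).val : ℕ) : ℝ) = n + M * k := by
  refine ⟨-(n / M), ?_⟩
  have h1 : (((n : ZMod M).val : ℕ) : ℤ) = n + M * (-(n / M)) := by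
    rw [ZMod.val_intCast]
    have := Int.emod_add_mul_ediv n M
    linarith
  exact_mod_cast h1

theorem c_int (n : ℤ) : c (n : ZMod M) = cs M n := by
  obtain ⟨k, hk⟩ := val_int (M := M) n
  unfold c
  rw [hk, cs_per]

theorem g_int (n : ℤ) : g (n : ZMod M) = cs M (n - 1 / 4) := by
  obtain ⟨k, hk⟩ := val_int (M := M) n
  unfold g
  rw [hk, show (n : ℝ) + M * k - 1 / 4 = (n - 1 / 4) + M * k by ring, cs_per]

theorem c_min (z : ZMod M) : c z = cs M (z.valMinAbs.natAbs : ℝ) := by
  conv_lhs => rw [← ZMod.coe_valMinAbs z]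
  rw [c_int, ← cs_abs]
  congr 1
  rw [Nat.cast_natAbs]
  push_cast
  rfl

theorem key (s : ZMod M) : ∃ κ : ℝ, 0 < κ ∧ ∀ z w : ZMod M,
    (g z - g (s - z)) * (g w - g (s - w)) = κ * (c (z - w) - c (z - (s - w))) := by
  have hM := M_pos (M := M)
  obtain ⟨s, rfl⟩ := ZMod.intCast_surjective s
  obtain ⟨S0, hS0⟩ : ∃ S0 : ℝ, S0 = Real.sin (Real.pi * (s - 1 / 2) / M) := ⟨_, rfl⟩
  have hne : S0 ≠ 0 := by
    intro h
    rw [hS0, Real.sin_eq_zero_iff] at h
    obtain ⟨n, hn⟩ := h
    rw [eq_div_iff hM.ne', mul_comm (n : ℝ), mul_assoc] at hn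
    have h1 := mul_left_cancel₀ Real.pi_ne_zero hn
    have h2 : (2 * (n * M) : ℝ) = 2 * s - 1 := by linarith
    have h3 : 2 * (n * (M : ℤ)) = 2 * s - 1 := by exact_mod_cast h2
    omega
  refine ⟨2 * S0 ^ 2, by positivity, fun z w => ?_⟩
  obtain ⟨z, rfl⟩ := ZMod.intCast_surjective z
  obtain ⟨w, rfl⟩ := ZMod.intCast_surjective w
  have hg : ∀ z : ℤ, g ((z : ℤ) : ZMod M) - g (((s : ℤ) : ZMod M) - ((z : ℤ) : ZMod M)) =
      -2 * S0 * Real.sin (Real.pi * (2 * z - s) / M) := by
    intro z
    rw [← Int.cast_sub, g_int, g_int]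
    unfold cs
    rw [Real.cos_sub_cos, hS0]
    have e1 : (2 * Real.pi * ((z : ℝ) - 1 / 4) / M +
        2 * Real.pi * (((s - z : ℤ) : ℝ) - 1 / 4) / M) / 2 = Real.pi * (s - 1 / 2) / M := by
      push_cast
      ring
    have e2 : (2 * Real.pi * ((z : ℝ) - 1 / 4) / M -
        2 * Real.pi * (((s - z : ℤ) : ℝ) - 1 / 4) / M) / 2 = Real.pi * (2 * z - s) / M := by
      push_cast
      ring
    rw [e1, e2]
  have hc : c (((z : ℤ) : ZMod M) - ((w : ℤ) : ZMod M)) -
        c (((z : ℤ) : ZMod M) - (((s : ℤ) : ZMod M) - ((w : ℤ) : ZMod M))) =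
      2 * (Real.sin (Real.pi * (2 * z - s) / M) * Real.sin (Real.pi * (2 * w - s) / M)) := by
    rw [← Int.cast_sub, ← Int.cast_sub, ← Int.cast_sub, c_int, c_int]
    unfold cs
    rw [Real.cos_sub_cos]
    have e1 : (2 * Real.pi * ((z - w : ℤ) : ℝ) / M + 2 * Real.pi * ((z - (s - w) : ℤ) : ℝ) / M) / 2 =
        Real.pi * (2 * z - s) / M := by
      push_cast
      ring
    have e2 : (2 * Real.pi * ((z - w : ℤ) : ℝ) / M - 2 * Real.pi * ((z - (s - w) : ℤ) : ℝ) / M) / 2 =
        -(Real.pi * (2 * w - s) / M) := by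
      push_cast
      ring
    rw [e1, e2, Real.sin_neg]
    ring
  rw [hg, hg, hc]
  ring

/-- the kernels increasing with `c` -/
def Mono (k : ZMod M → ℝ) : Prop := ∀ d d' : ZMod M, c d ≤ c d' → k d ≤ k d'

theorem c_even (d : ZMod M) : c (-d) = c d := by
  obtain ⟨n, rfl⟩ := ZMod.intCast_surjective d
  rw [← Int.cast_neg, c_int, c_int]
  push_cast
  rw [cs_neg]

theorem Mono.even {k : ZMod M → ℝ} (hk : Mono k) (d : ZMod M) : k (-d) = k d :=
  le_antisymm (hk _ _ (c_even d).le) (hk _ _ (c_even d).ge)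

/-- polarization of functions -/
noncomputable def pol (s : ZMod M) (a : ZMod M → ℝ) (z : ZMod M) : ℝ :=
  if g (s - z) < g z then max (a z) (a (s - z))
  else if g z < g (s - z) then min (a z) (a (s - z)) else a z

/-- the energy -/
noncomputable def En (k a : ZMod M → ℝ) : ℝ := ∑ x, ∑ y, a x * a y * k (x - y)

theorem sum_refl (s : ZMod M) (f : ZMod M → ℝ) : ∑ x, f (s - x) = ∑ x, f x :=
  (Equiv.subLeft s).sum_comp f

theorem En_sym (k a : ZMod M → ℝ) (hk : Mono k) (s : ZMod M) :
    4 * En k a = ∑ x, ∑ y, ((a x * a y + a (s - x) * a (s - y)) * k (x - y) +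
      (a x * a (s - y) + a (s - x) * a y) * k (x - (s - y))) := by
  have e1 : En k a = ∑ x, ∑ y, a (s - x) * a (s - y) * k (x - y) := by
    unfold En
    rw [← sum_refl s]
    refine Finset.sum_congr rfl fun x _ => ?_
    rw [← sum_refl s]
    refine Finset.sum_congr rfl fun y _ => ?_
    rw [← hk.even (x - y)]
    congr 2
    ring
  have e2 : En k a = ∑ x, ∑ y, a x * a (s - y) * k (x - (s - y)) := by
    unfold En
    refine Finset.sum_congr rfl fun x _ => ?_
    exact (sum_refl s (fun y => a x * a y * k (x - y))).symm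
  have e3 : En k a = ∑ x, ∑ y, a (s - x) * a y * k (x - (s - y)) := by
    unfold En
    rw [← sum_refl s]
    refine Finset.sum_congr rfl fun x _ => Finset.sum_congr rfl fun y _ => ?_
    rw [← hk.even (x - (s - y))]
    congr 2
    ring
  have e4 : ∀ x, ∑ y, ((a x * a y + a (s - x) * a (s - y)) * k (x - y) +
      (a x * a (s - y) + a (s - x) * a y) * k (x - (s - y))) =
      ∑ y, a x * a y * k (x - y) + ∑ y, a (s - x) * a (s - y) * k (x - y) +
      (∑ y, a x * a (s - y) * k (x - (s - y)) + ∑ y, a (s - x) * a y * k (x - (s - y))) := by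
    intro x
    rw [← Finset.sum_add_distrib, ← Finset.sum_add_distrib, ← Finset.sum_add_distrib]
    refine Finset.sum_congr rfl fun y _ => ?_
    ring
  simp only [e4, Finset.sum_add_distrib]
  rw [← e1, ← e2, ← e3]
  have e5 : ∑ x, ∑ y, a x * a y * k (x - y) = En k a := rfl
  rw [e5]
  ring

theorem pol_refl (s : ZMod M) (a : ZMod M → ℝ) (z : ZMod M) :
    pol s a (s - z) = if g z < g (s - z) then max (a (s - z)) (a z)
      else if g (s - z) < g z then min (a (s - z)) (a z) else a (s - z) := by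
  unfold pol
  rw [sub_sub_cancel]

theorem pointwise {p p' q q' k1 k2 : ℝ} :
    (k2 ≤ k1 → (p * q + p' * q') * k1 + (p * q' + p' * q) * k2 ≤
      (max p p' * max q q' + min p p' * min q q') * k1 +
        (max p p' * min q q' + min p p' * max q q') * k2) ∧
    (k1 ≤ k2 → (p * q + p' * q') * k1 + (p * q' + p' * q) * k2 ≤
      (max p p' * min q q' + min p p' * max q q') * k1 +
        (max p p' * max q q' + min p p' * min q q') * k2) := by
  constructor
  · intro h
    rcases le_total p p' with h1 | h1 <;> rcases le_total q q' with h2 | h2 <;>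
      simp only [h1, h2, max_eq_left, max_eq_right, min_eq_left, min_eq_right] <;>
      nlinarith [mul_nonneg (mul_nonneg (sub_nonneg.2 h1) (sub_nonneg.2 h2)) (sub_nonneg.2 h)]
  · intro h
    rcases le_total p p' with h1 | h1 <;> rcases le_total q q' with h2 | h2 <;>
      simp only [h1, h2, max_eq_left, max_eq_right, min_eq_left, min_eq_right] <;>
      nlinarith [mul_nonneg (mul_nonneg (sub_nonneg.2 h1) (sub_nonneg.2 h2)) (sub_nonneg.2 h)]

theorem En_pol (k a : ZMod M → ℝ) (hk : Mono k) (s : ZMod M) : En k a ≤ En k (pol s a) := by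
  have h4 : 4 * En k a ≤ 4 * En k (pol s a) := by
    rw [En_sym k a hk s, En_sym k (pol s a) hk s]
    refine Finset.sum_le_sum fun x _ => Finset.sum_le_sum fun y _ => ?_
    obtain ⟨κ, hκ, hkey⟩ := key s
    have h1 := hkey x y
    rw [pol_refl, pol_refl]
    unfold pol
    rcases lt_trichotomy (g (s - x)) (g x) with hx | hx | hx
    · rcases lt_trichotomy (g (s - y)) (g y) with hy | hy | hy
      · have hc : 0 < κ * (c (x - y) - c (x - (s - y))) := by
          rw [← h1]
          exact mul_pos (by linarith) (by linarith)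
        have hc2 := (mul_pos_iff_of_pos_left hκ).1 hc
        have hk2 := hk (x - (s - y)) (x - y) (by linarith)
        rw [if_pos hx, if_pos hy, if_neg (not_lt.2 hx.le), if_neg (not_lt.2 hy.le), if_pos hx,
          if_pos hy, min_comm (a (s - x)), min_comm (a (s - y))]
        exact pointwise.1 hk2
      · have hc : κ * (c (x - y) - c (x - (s - y))) = 0 := by
          rw [← h1, hy, sub_self, mul_zero]
        have hc2 := (mul_eq_zero.1 hc).resolve_left hκ.ne'
        have hk2 : k (x - y) = k (x - (s - y)) :=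
          le_antisymm (hk _ _ (by linarith)) (hk _ _ (by linarith))
        have e1 : ∀ p p' q q' : ℝ, (p * q + p' * q') * k (x - y) + (p * q' + p' * q) * k (x - (s - y))
            = (p + p') * (q + q') * k (x - y) := by
          intro p p' q q'
          rw [← hk2]
          ring
        rw [e1, e1]
        rw [if_pos hx, if_neg (not_lt.2 hx.le), if_pos hx, if_neg (not_lt.2 hy.le),
          if_neg (not_lt.2 hy.ge), if_neg (not_lt.2 hy.ge), if_neg (not_lt.2 hy.le),
          min_comm (a (s - x)), max_add_min]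
      · have hc : κ * (c (x - y) - c (x - (s - y))) < 0 := by
          rw [← h1]
          exact mul_neg_of_pos_of_neg (by linarith) (by linarith)
        have hc2 : c (x - y) - c (x - (s - y)) < 0 := by
          by_contra hn
          push Not at hn
          have := mul_nonneg hκ.le hn
          linarith
        have hk2 := hk (x - y) (x - (s - y)) (by linarith)
        rw [if_pos hx, if_neg (not_lt.2 hx.le), if_pos hx, if_neg (not_lt.2 hy.le), if_pos hy,
          if_pos hy, min_comm (a (s - x)), max_comm (a (s - y))]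
        exact pointwise.2 hk2
    · have hc : κ * (c (x - y) - c (x - (s - y))) = 0 := by
        rw [← h1, hx, sub_self, zero_mul]
      have hc2 := (mul_eq_zero.1 hc).resolve_left hκ.ne'
      have hk2 : k (x - y) = k (x - (s - y)) :=
        le_antisymm (hk _ _ (by linarith)) (hk _ _ (by linarith))
      have e1 : ∀ p p' q q' : ℝ, (p * q + p' * q') * k (x - y) + (p * q' + p' * q) * k (x - (s - y))
          = (p + p') * (q + q') * k (x - y) := by
        intro p p' q q'
        rw [← hk2]
        ring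
      rw [e1, e1]
      rw [if_neg (not_lt.2 hx.ge), if_neg (not_lt.2 hx.le), if_neg (not_lt.2 hx.le),
        if_neg (not_lt.2 hx.ge)]
      rcases lt_trichotomy (g (s - y)) (g y) with hy | hy | hy
      · rw [if_pos hy, if_neg (not_lt.2 hy.le), if_pos hy, min_comm (a (s - y)), max_add_min]
      · rw [if_neg (not_lt.2 hy.ge), if_neg (not_lt.2 hy.le), if_neg (not_lt.2 hy.le),
          if_neg (not_lt.2 hy.ge)]
      · rw [if_neg (not_lt.2 hy.le), if_pos hy, if_pos hy, max_comm (a (s - y)), min_add_max]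
    · rcases lt_trichotomy (g (s - y)) (g y) with hy | hy | hy
      · have hc : κ * (c (x - y) - c (x - (s - y))) < 0 := by
          rw [← h1]
          exact mul_neg_of_neg_of_pos (by linarith) (by linarith)
        have hc2 : c (x - y) - c (x - (s - y)) < 0 := by
          by_contra hn
          push Not at hn
          have := mul_nonneg hκ.le hn
          linarith
        have hk2 := hk (x - y) (x - (s - y)) (by linarith)
        rw [if_neg (not_lt.2 hx.le), if_pos hx, if_pos hx, if_pos hy, if_neg (not_lt.2 hy.le),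
          if_pos hy, max_comm (a (s - x)), min_comm (a (s - y))]
        refine (pointwise.2 hk2).trans (le_of_eq ?_)
        ring
      · have hc : κ * (c (x - y) - c (x - (s - y))) = 0 := by
          rw [← h1, hy, sub_self, mul_zero]
        have hc2 := (mul_eq_zero.1 hc).resolve_left hκ.ne'
        have hk2 : k (x - y) = k (x - (s - y)) :=
          le_antisymm (hk _ _ (by linarith)) (hk _ _ (by linarith))
        have e1 : ∀ p p' q q' : ℝ, (p * q + p' * q') * k (x - y) + (p * q' + p' * q) * k (x - (s - y))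
            = (p + p') * (q + q') * k (x - y) := by
          intro p p' q q'
          rw [← hk2]
          ring
        rw [e1, e1]
        rw [if_neg (not_lt.2 hx.le), if_pos hx, if_pos hx, if_neg (not_lt.2 hy.ge),
          if_neg (not_lt.2 hy.le), if_neg (not_lt.2 hy.le), if_neg (not_lt.2 hy.ge),
          max_comm (a (s - x)), min_add_max]
      · have hc : 0 < κ * (c (x - y) - c (x - (s - y))) := by
          rw [← h1]
          exact mul_pos_of_neg_of_neg (by linarith) (by linarith)
        have hc2 := (mul_pos_iff_of_pos_left hκ).1 hc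
        have hk2 := hk (x - (s - y)) (x - y) (by linarith)
        rw [if_neg (not_lt.2 hx.le), if_pos hx, if_neg (not_lt.2 hy.le), if_pos hy, if_pos hx,
          if_pos hy, max_comm (a (s - x)), max_comm (a (s - y))]
        refine (pointwise.1 hk2).trans (le_of_eq ?_)
        ring
  linarith

/-- the indicator of a set -/
noncomputable def ind (A : Finset (ZMod M)) (z : ZMod M) : ℝ := if z ∈ A then 1 else 0

omit [NeZero M] in
theorem ind_cases (A : Finset (ZMod M)) (z : ZMod M) : ind A z = 0 ∨ ind A z = 1 := by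
  unfold ind
  split_ifs
  · exact Or.inr rfl
  · exact Or.inl rfl

theorem pol_cases (s : ZMod M) (A : Finset (ZMod M)) (z : ZMod M) :
    pol s (ind A) z = 0 ∨ pol s (ind A) z = 1 := by
  unfold pol
  split_ifs
  · rcases max_choice (ind A z) (ind A (s - z)) with h | h <;> rw [h] <;> exact ind_cases _ _
  · rcases min_choice (ind A z) (ind A (s - z)) with h | h <;> rw [h] <;> exact ind_cases _ _
  · exact ind_cases _ _

open Classical in
/-- polarization of sets -/
noncomputable def polA (s : ZMod M) (A : Finset (ZMod M)) : Finset (ZMod M) :=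
  Finset.univ.filter fun z => pol s (ind A) z = 1

theorem ind_polA (s : ZMod M) (A : Finset (ZMod M)) : ind (polA s A) = pol s (ind A) := by
  funext z
  have hm : z ∈ polA s A ↔ pol s (ind A) z = 1 := by
    unfold polA
    rw [Finset.mem_filter]
    exact ⟨fun h => h.2, fun h => ⟨Finset.mem_univ _, h⟩⟩
  unfold ind
  by_cases h : z ∈ polA s A
  · rw [if_pos h]
    exact (hm.1 h).symm
  · rw [if_neg h]
    rcases pol_cases s A z with h1 | h1
    · exact h1.symm
    · exact absurd (hm.2 h1) h

theorem pol_add (s : ZMod M) (a : ZMod M → ℝ) (z : ZMod M) :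
    pol s a z + pol s a (s - z) = a z + a (s - z) := by
  rw [pol_refl]
  unfold pol
  rcases lt_trichotomy (g (s - z)) (g z) with h | h | h
  · rw [if_pos h, if_neg (not_lt.2 h.le), if_pos h, min_comm (a (s - z)), max_add_min]
  · rw [if_neg (not_lt.2 h.ge), if_neg (not_lt.2 h.le), if_neg (not_lt.2 h.le),
      if_neg (not_lt.2 h.ge)]
  · rw [if_neg (not_lt.2 h.le), if_pos h, if_pos h, max_comm (a (s - z)), min_add_max]

theorem sum_pol (s : ZMod M) (a : ZMod M → ℝ) : ∑ z, pol s a z = ∑ z, a z := by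
  have h1 : ∑ z, (pol s a z + pol s a (s - z)) = ∑ z, (a z + a (s - z)) :=
    Finset.sum_congr rfl fun z _ => pol_add s a z
  rw [Finset.sum_add_distrib, Finset.sum_add_distrib, sum_refl, sum_refl] at h1
  linarith

theorem sum_ind (A : Finset (ZMod M)) : ∑ z, ind A z = A.card := by
  unfold ind
  rw [← Finset.sum_filter, Finset.filter_mem_eq_inter, Finset.univ_inter]
  simp

theorem card_polA (s : ZMod M) (A : Finset (ZMod M)) : (polA s A).card = A.card := by
  have h : ((polA s A).card : ℝ) = A.card := by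
    rw [← sum_ind, ind_polA, sum_pol, sum_ind]
  exact_mod_cast h

/-- the total height -/
noncomputable def G (a : ZMod M → ℝ) : ℝ := ∑ z, g z * a z

theorem G_pol (s : ZMod M) (a : ZMod M → ℝ) :
    2 * (G (pol s a) - G a) = ∑ z, (g z - g (s - z)) * (pol s a z - a z) := by
  have e1 : G (pol s a) - G a = ∑ z, g z * (pol s a z - a z) := by
    unfold G
    rw [← Finset.sum_sub_distrib]
    refine Finset.sum_congr rfl fun z _ => ?_
    ring
  have e2 : G (pol s a) - G a = ∑ z, g (s - z) * (pol s a (s - z) - a (s - z)) := by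
    rw [e1]
    exact (sum_refl s (fun z => g z * (pol s a z - a z))).symm
  have e3 : 2 * (G (pol s a) - G a) = ∑ z, (g z * (pol s a z - a z) +
      g (s - z) * (pol s a (s - z) - a (s - z))) := by
    rw [Finset.sum_add_distrib, ← e1, ← e2]
    ring
  rw [e3]
  refine Finset.sum_congr rfl fun z _ => ?_
  have h := pol_add s a z
  have h2 : pol s a (s - z) - a (s - z) = -(pol s a z - a z) := by linarith
  rw [h2]
  ring

theorem G_term (s : ZMod M) (a : ZMod M → ℝ) (z : ZMod M) :
    0 ≤ (g z - g (s - z)) * (pol s a z - a z) := by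
  unfold pol
  rcases lt_trichotomy (g (s - z)) (g z) with h | h | h
  · rw [if_pos h]
    exact mul_nonneg (by linarith) (sub_nonneg.2 (le_max_left _ _))
  · rw [h, sub_self, zero_mul]
  · rw [if_neg (not_lt.2 h.le), if_pos h]
    exact mul_nonneg_of_nonpos_of_nonpos (by linarith) (sub_nonpos.2 (min_le_left _ _))

theorem G_lt (A : Finset (ZMod M)) {x y : ZMod M} (hx : x ∉ A) (hy : y ∈ A) (h : g y < g x) :
    G (ind A) < G (ind (polA (x + y) A)) := by
  rw [ind_polA]
  have h1 := G_pol (x + y) (ind A)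
  have h2 : 0 < ∑ z, (g z - g (x + y - z)) * (pol (x + y) (ind A) z - ind A z) := by
    refine Finset.sum_pos' (fun z _ => G_term _ _ z) ⟨x, Finset.mem_univ _, ?_⟩
    have e : x + y - x = y := by ring
    have e2 : ind A x = 0 := by
      unfold ind
      rw [if_neg hx]
    have e3 : ind A y = 1 := by
      unfold ind
      rw [if_pos hy]
    unfold pol
    rw [e, if_pos h, e2, e3, max_eq_right zero_le_one]
    have : 0 < g x - g y := by linarith
    linarith
  linarith

/-- among the sets with a given number of elements a superlevel set of the height has the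
greatest energy -/
theorem exists_max (k : ZMod M → ℝ) (hk : Mono k) (A : Finset (ZMod M)) :
    ∃ B : Finset (ZMod M), B.card = A.card ∧ En k (ind A) ≤ En k (ind B) ∧
      ∀ x y, x ∉ B → y ∈ B → g x ≤ g y := by
  classical
  have hne : ((Finset.univ : Finset (Finset (ZMod M))).filter
      fun B => B.card = A.card).Nonempty :=
    ⟨A, by rw [Finset.mem_filter]; exact ⟨Finset.mem_univ _, rfl⟩⟩
  obtain ⟨B1, hB1, hmax1⟩ := Finset.exists_max_image _ (fun B => En k (ind B)) hne
  rw [Finset.mem_filter] at hB1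
  have hne2 : ((Finset.univ : Finset (Finset (ZMod M))).filter
      fun B => B.card = A.card ∧ En k (ind B1) ≤ En k (ind B)).Nonempty :=
    ⟨B1, by rw [Finset.mem_filter]; exact ⟨Finset.mem_univ _, hB1.2, le_rfl⟩⟩
  obtain ⟨B2, hB2, hmax2⟩ := Finset.exists_max_image _ (fun B => G (ind B)) hne2
  rw [Finset.mem_filter] at hB2
  obtain ⟨-, hc2, hE2⟩ := hB2
  refine ⟨B2, hc2, ?_, ?_⟩
  · exact (hmax1 A (by rw [Finset.mem_filter]; exact ⟨Finset.mem_univ _, rfl⟩)).trans hE2
  · intro x y hx hy
    by_contra hlt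
    push Not at hlt
    have h1 := G_lt B2 hx hy hlt
    have h2 := hmax2 (polA (x + y) B2) (by
      rw [Finset.mem_filter]
      refine ⟨Finset.mem_univ _, (card_polA _ _).trans hc2, hE2.trans ?_⟩
      rw [ind_polA]
      exact En_pol k _ hk _)
    linarith

/-- the centred arc -/
noncomputable def cen (M a : ℕ) : Finset (ZMod M) :=
  (arc M a).image fun z => z - (((a - 1) / 2 : ℕ) : ZMod M)

theorem arc_card (a : ℕ) (ha : a ≤ M) : (arc M a).card = a := by
  unfold arc
  rw [Finset.card_image_of_injOn, Finset.card_range]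
  intro x hx y hy hxy
  rw [Finset.coe_range, Set.mem_Iio] at hx hy
  have h1 := congrArg ZMod.val hxy
  simp only at h1
  rwa [ZMod.val_natCast_of_lt (by omega), ZMod.val_natCast_of_lt (by omega)] at h1

theorem cen_card (a : ℕ) (ha : a ≤ M) : (cen M a).card = a := by
  unfold cen
  rw [Finset.card_image_of_injective _ (sub_left_injective), arc_card a ha]

omit [NeZero M] in
theorem mem_cen {a : ℕ} (z : ZMod M) :
    z ∈ cen M a ↔ ∃ n : ℤ, -(((a - 1) / 2 : ℕ) : ℤ) ≤ n ∧ n < (a : ℤ) - (((a - 1) / 2 : ℕ) : ℤ) ∧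
      (n : ZMod M) = z := by
  unfold cen arc
  rw [Finset.mem_image]
  constructor
  · rintro ⟨w, hw, rfl⟩
    rw [Finset.mem_image] at hw
    obtain ⟨t, ht, rfl⟩ := hw
    rw [Finset.mem_range] at ht
    refine ⟨(t : ℤ) - (((a - 1) / 2 : ℕ) : ℤ), by omega, by omega, ?_⟩
    rw [Int.cast_sub, Int.cast_natCast, Int.cast_natCast]
  · rintro ⟨n, h1, h2, rfl⟩
    refine ⟨(((n + (((a - 1) / 2 : ℕ) : ℤ)).toNat : ℕ) : ZMod M), ?_, ?_⟩
    · rw [Finset.mem_image]
      refine ⟨_, ?_, rfl⟩
      rw [Finset.mem_range]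
      omega
    · have e : (((n + (((a - 1) / 2 : ℕ) : ℤ)).toNat : ℕ) : ZMod M) =
          ((n + (((a - 1) / 2 : ℕ) : ℤ) : ℤ) : ZMod M) := by
        rw [← Int.cast_natCast, Int.toNat_of_nonneg (by omega)]
      rw [e, Int.cast_add, Int.cast_natCast, add_sub_cancel_right]

theorem cen_lt {a : ℕ} (ha : 0 < a) {z w : ZMod M} (hz : z ∈ cen M a) (hw : w ∉ cen M a) :
    g w < g z := by
  obtain ⟨n, hn1, hn2, rfl⟩ := (mem_cen z).1 hz
  have hm := ZMod.valMinAbs_mem_Ioc w
  obtain ⟨m, hm0⟩ : ∃ m : ℤ, m = w.valMinAbs := ⟨_, rfl⟩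
  rw [← hm0, Set.mem_Ioc] at hm
  have hwm : (m : ZMod M) = w := by rw [hm0, ZMod.coe_valMinAbs]
  have hout : m < -(((a - 1) / 2 : ℕ) : ℤ) ∨ (a : ℤ) - (((a - 1) / 2 : ℕ) : ℤ) ≤ m := by
    by_contra hcon
    push Not at hcon
    exact hw ((mem_cen w).2 ⟨m, hcon.1, hcon.2, hwm⟩)
  rw [← hwm, g_int, g_int, ← cs_abs ((n : ℝ) - 1 / 4), ← cs_abs ((m : ℝ) - 1 / 4)]
  obtain ⟨h, hh⟩ : ∃ h : ℤ, h = (((a - 1) / 2 : ℕ) : ℤ) := ⟨_, rfl⟩
  rw [← hh] at hn1 hn2 hout
  have hn1' : -(h : ℝ) ≤ n := by exact_mod_cast hn1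
  refine cs_lt (abs_nonneg _) ?_ ?_
  · rcases hout with h1 | h1
    · have h2 : (m : ℝ) ≤ -h - 1 := by exact_mod_cast (by omega : m ≤ -h - 1)
      have h3 : (n : ℝ) ≤ h + 1 := by exact_mod_cast (by omega : n ≤ h + 1)
      have h4 : (0 : ℝ) ≤ h := by exact_mod_cast (by omega : 0 ≤ h)
      rw [abs_of_neg (by linarith : (m : ℝ) - 1 / 4 < 0), abs_lt]
      constructor <;> linarith
    · have h2 : (h : ℝ) + 1 ≤ m := by exact_mod_cast (by omega : h + 1 ≤ m)
      have h3 : (n : ℝ) + 1 ≤ m := by exact_mod_cast (by omega : n + 1 ≤ m)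
      have h4 : (0 : ℝ) ≤ h := by exact_mod_cast (by omega : 0 ≤ h)
      rw [abs_of_pos (by linarith : 0 < (m : ℝ) - 1 / 4), abs_lt]
      constructor <;> linarith
  · have h2 : (m : ℝ) * 2 ≤ M := by exact_mod_cast hm.2
    have h3 : -(M : ℝ) + 1 ≤ m * 2 := by exact_mod_cast (by omega : -(M : ℤ) + 1 ≤ m * 2)
    have h4 : |(m : ℝ) - 1 / 4| ≤ M / 2 := by
      rw [abs_le]
      constructor <;> linarith
    linarith

theorem eq_cen {B : Finset (ZMod M)} (hB : ∀ x y, x ∉ B → y ∈ B → g x ≤ g y) (h0 : 0 < B.card) :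
    B = cen M B.card := by
  have hle : B.card ≤ M := by
    have := Finset.card_le_univ B
    rwa [ZMod.card] at this
  have hc := cen_card B.card hle
  refine Finset.eq_of_subset_of_card_le (fun y hy => ?_) hc.le
  by_contra hyC
  have hne : ∃ x ∈ cen M B.card, x ∉ B := by
    by_contra hcon
    push Not at hcon
    have h1 : cen M B.card ⊆ B := hcon
    have h2 := Finset.eq_of_subset_of_card_le h1 hc.ge
    rw [h2] at hyC
    exact hyC hy
  obtain ⟨x, hxC, hxB⟩ := hne
  exact absurd (cen_lt h0 hxC hyC) (not_lt.2 (hB x y hxB hy))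

theorem En_ind (k : ZMod M → ℝ) (A : Finset (ZMod M)) :
    En k (ind A) = ∑ x ∈ A, ∑ y ∈ A, k (x - y) := by
  have h : ∀ f : ZMod M → ℝ, ∑ x, ind A x * f x = ∑ x ∈ A, f x := by
    intro f
    unfold ind
    simp only [ite_mul, one_mul, zero_mul]
    rw [← Finset.sum_filter, Finset.filter_mem_eq_inter, Finset.univ_inter]
  unfold En
  rw [← h]
  refine Finset.sum_congr rfl fun x _ => ?_
  rw [← h, Finset.mul_sum]
  refine Finset.sum_congr rfl fun y _ => ?_
  ring

theorem En_cen (k : ZMod M → ℝ) (a : ℕ) : En k (ind (cen M a)) = En k (ind (arc M a)) := by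
  rw [En_ind, En_ind]
  unfold cen
  rw [Finset.sum_image (fun x _ y _ h => sub_left_injective h)]
  refine Finset.sum_congr rfl fun x _ => ?_
  rw [Finset.sum_image (fun x _ y _ h => sub_left_injective h)]
  refine Finset.sum_congr rfl fun y _ => ?_
  rw [sub_sub_sub_cancel_right]

/-- the energy form of the inequality -/
theorem energy (k : ZMod M → ℝ) (hk : Mono k) (A : Finset (ZMod M)) :
    En k (ind A) ≤ En k (ind (arc M A.card)) := by
  obtain ⟨B, hBc, hBE, hB⟩ := exists_max k hk A
  rcases Nat.eq_zero_or_pos A.card with h0 | h0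
  · rw [Finset.card_eq_zero] at h0
    subst h0
    have : arc M (∅ : Finset (ZMod M)).card = ∅ := by
      unfold arc
      simp
    rw [this]
  · have := eq_cen hB (by omega)
    rw [hBc] at this
    rw [← En_cen, ← this]
    exact hBE

/-- the kernel with a great value at `0` -/
noncomputable def big (K : ZMod M → ℝ) (d : ZMod M) : ℝ := if d = 0 then ∑ e, |K e| else K d

theorem K_abs {K : ZMod M → ℝ} (hK : IsKernel M K) (d : ZMod M) :
    K d = K ((d.valMinAbs.natAbs : ℕ) : ZMod M) := by
  rw [ZMod.natCast_natAbs_valMinAbs]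
  split_ifs
  · rfl
  · rw [hK.even]

theorem mono_big {K : ZMod M → ℝ} (hK : IsKernel M K) : Mono (big K) := by
  intro d d' h
  have hKle : ∀ e : ZMod M, K e ≤ ∑ e, |K e| := fun e =>
    (le_abs_self _).trans (Finset.single_le_sum (f := fun e => |K e|)
      (fun i _ => abs_nonneg _) (Finset.mem_univ e))
  have hb : ∀ e : ZMod M, 2 * e.valMinAbs.natAbs ≤ M := fun e => by
    have := ZMod.natAbs_valMinAbs_le e
    omega
  rw [c_min, c_min] at h
  have hle : d'.valMinAbs.natAbs ≤ d.valMinAbs.natAbs := by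
    by_contra hcon
    push Not at hcon
    have := cs_lt (M := M) (t := (d.valMinAbs.natAbs : ℝ)) (t' := (d'.valMinAbs.natAbs : ℝ))
      (Nat.cast_nonneg _) (by exact_mod_cast hcon) (by exact_mod_cast hb d')
    linarith
  unfold big
  by_cases h' : d' = 0
  · rw [if_pos h']
    split_ifs
    · exact le_rfl
    · exact hKle d
  · have h1 : 1 ≤ d'.valMinAbs.natAbs := by
      rcases Nat.eq_zero_or_pos d'.valMinAbs.natAbs with h0 | h0
      · exact absurd ((ZMod.valMinAbs_eq_zero d').1 (Int.natAbs_eq_zero.1 h0)) h'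
      · exact h0
    have hd : d ≠ 0 := by
      intro h0
      rw [h0, ZMod.valMinAbs_zero] at hle
      simp at hle
      exact h' hle
    rw [if_neg h', if_neg hd, K_abs hK d, K_abs hK d']
    exact hK.anti _ _ h1 hle (hb d)

theorem cut_eq (K : ZMod M → ℝ) (A : Finset (ZMod M)) :
    ∑ x ∈ A, ∑ y ∈ Aᶜ, K (x - y) = A.card * ∑ d, big K d - En (big K) (ind A) := by
  rw [En_ind]
  have h1 : ∀ x ∈ A, ∑ y ∈ Aᶜ, K (x - y) = ∑ d, big K d - ∑ y ∈ A, big K (x - y) := by
    intro x hx
    have e1 : ∑ y ∈ Aᶜ, K (x - y) = ∑ y ∈ Aᶜ, big K (x - y) := by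
      refine Finset.sum_congr rfl fun y hy => ?_
      rw [Finset.mem_compl] at hy
      unfold big
      rw [if_neg]
      intro h0
      rw [sub_eq_zero] at h0
      exact hy (h0 ▸ hx)
    have e2 := Finset.sum_compl_add_sum A (fun y => big K (x - y))
    rw [sum_refl x (big K)] at e2
    rw [e1]
    linarith
  rw [Finset.sum_congr rfl h1, Finset.sum_sub_distrib, Finset.sum_const, nsmul_eq_mul]

end Rz

/-- **The rearrangement inequality of Riesz on a circle.** -/
theorem riesz : S_Riesz := by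
  intro M _ K hK A
  have hle : A.card ≤ M := by
    have := Finset.card_le_univ A
    rwa [ZMod.card] at this
  rw [Rz.cut_eq, Rz.cut_eq, Rz.arc_card A.card hle]
  have := Rz.energy (Rz.big K) (Rz.mono_big hK) A
  linarith

end Pool.Agent.NH46.FW
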