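import Pool.Agent.NH46.FW.Circ

set_option autoImplicit false
set_option linter.unusedSectionVars false

/-!
# Functions on a circle with nonnegative third differences
-/

namespace Pool.Agent.NH46.FW

open Finset

/-- `f` gives an even function on `ℤ / M` whose third differences are nonnegative on the first
half. -/
structure IsThird (M : ℕ) (f : ℕ → ℝ) : Prop where
  zero : f 0 = 0
  symm : ∀ x ≤ M, f (M - x) = f x
  third : ∀ x, 1 ≤ x → 2 * (x + 1) ≤ M →
    f (x - 1) - 2 * f x + f (x + 1) ≤ f x - 2 * f (x + 1) + f (x + 2)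

/-- `f` is concave. -/
def IsConc (M : ℕ) (f : ℕ → ℝ) : Prop :=
  ∀ x, 1 ≤ x → x < M → f (x - 1) + f (x + 1) ≤ 2 * f x

section

variable {M : ℕ} [NeZero M] {f : ℕ → ℝ}

/-- The function on `ℤ / M`. -/
def phi (M : ℕ) (f : ℕ → ℝ) (x : ZMod M) : ℝ := f x.val

/-- Minus half of the second difference. -/
noncomputable def ker (M : ℕ) (f : ℕ → ℝ) (x : ZMod M) : ℝ :=
  phi M f x - (phi M f (x + 1) + phi M f (x - 1)) / 2

theorem phi_natCast (h : IsThird M f) {a : ℕ} (ha : a ≤ M) : phi M f (a : ZMod M) = f a := by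
  unfold phi
  rw [ZMod.val_natCast]
  rcases Nat.lt_or_ge a M with h1 | h1
  · rw [Nat.mod_eq_of_lt h1]
  · have : a = M := le_antisymm ha h1
    subst this
    rw [Nat.mod_self, h.zero]
    have := h.symm a le_rfl
    rw [Nat.sub_self, h.zero] at this
    exact this

theorem phi_neg (h : IsThird M f) (x : ZMod M) : phi M f (-x) = phi M f x := by
  have hx : x = ((x.val : ℕ) : ZMod M) := (ZMod.natCast_zmod_val x).symm
  have h1 := ZMod.val_lt x
  have e : -x = ((M - x.val : ℕ) : ZMod M) := by
    rw [Nat.cast_sub h1.le, ZMod.natCast_self, zero_sub, ← hx]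
  rw [e, phi_natCast h (Nat.sub_le _ _), h.symm _ h1.le]
  rfl

theorem ker_natCast (h : IsThird M f) {a : ℕ} (h1 : 1 ≤ a) (h2 : a < M) :
    ker M f (a : ZMod M) = f a - (f (a + 1) + f (a - 1)) / 2 := by
  unfold ker
  have e1 : (a : ZMod M) + 1 = ((a + 1 : ℕ) : ZMod M) := by push_cast; rfl
  have e2 : (a : ZMod M) - 1 = ((a - 1 : ℕ) : ZMod M) := by
    rw [Nat.cast_sub h1, Nat.cast_one]
  rw [e1, e2, phi_natCast h h2.le, phi_natCast h h2, phi_natCast h (by omega)]

theorem ker_neg (h : IsThird M f) (x : ZMod M) : ker M f (-x) = ker M f x := by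
  unfold ker
  have e1 : -x + 1 = -(x - 1) := by ring
  have e2 : -x - 1 = -(x + 1) := by ring
  rw [e1, e2, phi_neg h, phi_neg h, phi_neg h]
  ring

/-- The kernel does not increase with the distance. -/
theorem ker_anti (h : IsThird M f) {a b : ℕ} (h1 : 1 ≤ a) (h2 : a ≤ b) (h3 : 2 * b ≤ M) :
    ker M f (b : ZMod M) ≤ ker M f (a : ZMod M) := by
  induction b, h2 using Nat.le_induction with
  | base => exact le_rfl
  | succ b hb ih =>
    refine le_trans ?_ (ih (by omega))
    rw [ker_natCast h (by omega) (by omega), ker_natCast h (by omega) (by omega)]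
    have := h.third b (by omega) (by omega)
    have e : b + 1 + 1 = b + 2 := rfl
    rw [e, Nat.add_sub_cancel]
    linarith

theorem ker_isKernel (h : IsThird M f) : IsKernel M (ker M f) :=
  ⟨ker_neg h, fun _ _ h1 h2 h3 => ker_anti h h1 h2 h3⟩

theorem ker_nonneg (h : IsThird M f) (hc : IsConc M f) {x : ZMod M} (hx : x ≠ 0) :
    0 ≤ ker M f x := by
  have h1 := ZMod.val_lt x
  have h2 : 1 ≤ x.val := Nat.one_le_iff_ne_zero.2 fun h => hx ((ZMod.val_eq_zero x).1 h)
  have e : x = ((x.val : ℕ) : ZMod M) := (ZMod.natCast_zmod_val x).symm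
  rw [e, ker_natCast h h2 h1]
  have := hc x.val h2 h1
  linarith

/-- The energy of a set of integers: minus the sum of `ker` over the pairs. -/
noncomputable def en (M : ℕ) (f : ℕ → ℝ) (T T' : Finset ℕ) : ℝ :=
  - ∑ t ∈ T, ∑ t' ∈ T', ker M f ((t : ZMod M) - t')

theorem sum_ker_Ico (f : ℕ → ℝ) (t : ZMod M) (s r : ℕ) :
    ∑ t' ∈ Ico s (s + r), ker M f (t - (t' : ZMod M))
      = ((phi M f (t - s) - phi M f (t - s + 1))
        - (phi M f (t - (s + r : ℕ)) - phi M f (t - (s + r : ℕ) + 1))) / 2 := by
  induction r with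
  | zero => simp
  | succ r ih =>
    rw [← add_assoc, sum_Ico_succ_top (by omega), ih]
    unfold ker
    have e1 : t - ((s + r + 1 : ℕ) : ZMod M) = t - (s + r : ℕ) - 1 := by
      push_cast; ring
    rw [e1, sub_add_cancel]
    ring

/-- Telescoping. -/
theorem en_interval (h : IsThird M f) (s r : ℕ) :
    en M f (Ico s (s + r)) (Ico s (s + r)) = phi M f (r : ZMod M) := by
  have outer : ∀ (c : ZMod M) (m : ℕ), ∑ t ∈ Ico s (s + m),
      (phi M f ((t : ZMod M) - c) - phi M f ((t : ZMod M) - c + 1))
      = phi M f ((s : ZMod M) - c) - phi M f (((s + m : ℕ) : ZMod M) - c) := by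
    intro c m
    induction m with
    | zero => simp
    | succ m ih =>
      rw [← add_assoc, sum_Ico_succ_top (by omega), ih]
      have e1 : ((s + m + 1 : ℕ) : ZMod M) - c = ((s + m : ℕ) : ZMod M) - c + 1 := by
        push_cast; ring
      rw [e1]
      ring
  unfold en
  rw [sum_congr rfl fun (t : ℕ) _ => sum_ker_Ico f (t : ZMod M) s r, ← sum_div, sum_sub_distrib, outer,
    outer]
  have e0 : phi M f 0 = 0 := by
    unfold phi
    rw [ZMod.val_zero, h.zero]
  have e1 : ((s + r : ℕ) : ZMod M) - s = r := by push_cast; ring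
  have e2 : (s : ZMod M) - ((s + r : ℕ) : ZMod M) = - (r : ZMod M) := by push_cast; ring
  rw [sub_self, sub_self, e1, e2, e0, phi_neg h]
  ring

theorem sum_ker (f : ℕ → ℝ) (c : ZMod M) : ∑ x, ker M f (c - x) = 0 := by
  have h1 : ∑ x, ker M f (c - x) = ∑ x, ker M f x := Equiv.sum_comp (Equiv.subLeft c) (ker M f)
  have h2 : ∑ x : ZMod M, phi M f (x + 1) = ∑ x, phi M f x :=
    Equiv.sum_comp (Equiv.addRight 1) (phi M f)
  have h3 : ∑ x : ZMod M, phi M f (x - 1) = ∑ x, phi M f x :=
    Equiv.sum_comp (Equiv.subRight 1) (phi M f)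
  rw [h1]
  unfold ker
  rw [sum_sub_distrib, ← sum_div, sum_add_distrib, h2, h3]
  ring

theorem sum_ker_compl (f : ℕ → ℝ) (c : ZMod M) (A : Finset (ZMod M)) :
    ∑ y ∈ Aᶜ, ker M f (c - y) = - ∑ y ∈ A, ker M f (c - y) := by
  have := sum_add_sum_compl A (fun y => ker M f (c - y))
  rw [sum_ker] at this
  linarith

/-- The energy of a function on the circle. -/
noncomputable def energy (M : ℕ) [NeZero M] (f : ℕ → ℝ) (h h' : ZMod M → ℕ) : ℝ :=
  - ∑ x, ∑ y, ker M f (x - y) * h x * h' y

theorem energy_add_left (h₁ h₂ h' : ZMod M → ℕ) :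
    energy M f (fun x => h₁ x + h₂ x) h' = energy M f h₁ h' + energy M f h₂ h' := by
  unfold energy
  rw [← neg_add, ← sum_add_distrib]
  congr 1
  refine sum_congr rfl fun x _ => ?_
  rw [← sum_add_distrib]
  refine sum_congr rfl fun y _ => ?_
  push_cast
  ring

theorem energy_comm (hT : IsThird M f) (h h' : ZMod M → ℕ) :
    energy M f h h' = energy M f h' h := by
  unfold energy
  rw [sum_comm]
  congr 1
  refine sum_congr rfl fun x _ => sum_congr rfl fun y _ => ?_
  rw [← ker_neg hT, neg_sub]
  ring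

theorem energy_set (A : Finset (ZMod M)) (h' : ZMod M → ℕ) :
    energy M f (fun x => if x ∈ A then 1 else 0) h'
      = ∑ y, h' y * - ∑ x ∈ A, ker M f (x - y) := by
  unfold energy
  rw [sum_comm, ← sum_neg_distrib]
  refine sum_congr rfl fun y _ => ?_
  rw [mul_neg, mul_sum]
  congr 1
  rw [← sum_subset (subset_univ A)]
  · refine sum_congr rfl fun x hx => ?_
    simp only [if_pos hx]
    push_cast
    ring
  · intro x _ hx
    simp only [if_neg hx]
    push_cast
    ring

theorem phi_le_cut (hR : S_Riesz) (hT : IsThird M f) (A : Finset (ZMod M)) :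
    phi M f (A.card : ZMod M) ≤ ∑ x ∈ A, ∑ y ∈ Aᶜ, ker M f (x - y) := by
  refine le_trans (le_of_eq ?_) (hR M (ker M f) (ker_isKernel hT) A)
  have hA : A.card ≤ M := by
    have := card_le_univ A
    rwa [ZMod.card] at this
  have inj : Set.InjOn (fun t : ℕ => (t : ZMod M)) (range A.card : Finset ℕ) := by
    intro a ha b hb hab
    rw [mem_coe, mem_range] at ha hb
    have h1 := (ZMod.natCast_eq_natCast_iff' a b M).1 hab
    rwa [Nat.mod_eq_of_lt (lt_of_lt_of_le ha hA), Nat.mod_eq_of_lt (lt_of_lt_of_le hb hA)] at h1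
  have e := en_interval hT 0 A.card
  rw [zero_add, Nat.Ico_zero_eq_range] at e
  rw [← e]
  unfold en
  rw [← sum_neg_distrib]
  unfold arc
  rw [sum_image inj]
  refine sum_congr rfl fun t _ => ?_
  rw [sum_ker_compl, sum_image inj]

theorem conc_sub (hT : IsThird M f) (hc : IsConc M f) {a b : ℕ} (hab : a + b ≤ M) :
    f (a + b) ≤ f a + f b := by
  have e1 := en_interval hT 0 (a + b)
  have e2 := en_interval hT 0 a
  have e3 := en_interval hT a b
  rw [zero_add] at e1 e2
  rw [phi_natCast hT hab] at e1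
  rw [phi_natCast hT (by omega)] at e2 e3
  rw [← e1, ← e2, ← e3]
  have hd : Disjoint (Ico 0 a) (Ico a (a + b)) := Ico_disjoint_Ico_consecutive 0 a (a + b)
  have hu : Ico 0 (a + b) = Ico 0 a ∪ Ico a (a + b) :=
    (Ico_union_Ico_eq_Ico (Nat.zero_le a) (Nat.le_add_right a b)).symm
  have pos : ∀ t ∈ Ico 0 a, ∀ t' ∈ Ico a (a + b), 0 ≤ ker M f ((t : ZMod M) - t') ∧
      0 ≤ ker M f ((t' : ZMod M) - t) := by
    intro t ht t' ht'
    rw [mem_Ico] at ht ht'
    have hne : (t : ZMod M) - t' ≠ 0 := by
      intro h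
      have h1 := (ZMod.natCast_eq_natCast_iff' t t' M).1 (sub_eq_zero.1 h)
      rw [Nat.mod_eq_of_lt (by omega), Nat.mod_eq_of_lt (by omega)] at h1
      omega
    refine ⟨ker_nonneg hT hc hne, ?_⟩
    rw [← ker_neg hT, neg_sub]
    exact ker_nonneg hT hc hne
  unfold en
  rw [hu, sum_union hd, sum_congr rfl fun t _ => sum_union hd, sum_add_distrib,
    sum_congr rfl fun t (_ : t ∈ Ico a (a + b)) => sum_union hd, sum_add_distrib]
  have p1 : 0 ≤ ∑ t ∈ Ico 0 a, ∑ t' ∈ Ico a (a + b), ker M f ((t : ZMod M) - t') :=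
    sum_nonneg fun t ht => sum_nonneg fun t' ht' => (pos t ht t' ht').1
  have p2 : 0 ≤ ∑ t ∈ Ico a (a + b), ∑ t' ∈ Ico 0 a, ker M f ((t : ZMod M) - t') :=
    sum_nonneg fun t ht => sum_nonneg fun t' ht' => (pos t' ht' t ht).2
  linarith

theorem phi_add_le (hT : IsThird M f) (hc : IsConc M f) (x y : ZMod M) :
    phi M f (x + y) ≤ phi M f x + phi M f y := by
  have key : ∀ x y : ZMod M, x.val + y.val ≤ M → phi M f (x + y) ≤ phi M f x + phi M f y := by
    intro x y h
    have e : x + y = ((x.val + y.val : ℕ) : ZMod M) := by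
      push_cast
      rw [ZMod.natCast_zmod_val, ZMod.natCast_zmod_val]
    rw [e, phi_natCast hT h]
    exact conc_sub hT hc h
  by_cases h : x.val + y.val ≤ M
  · exact key x y h
  · have h1 := ZMod.val_lt x
    have h2 := ZMod.val_lt y
    have hx : x ≠ 0 := by
      rintro rfl
      rw [ZMod.val_zero] at h
      omega
    have hy : y ≠ 0 := by
      rintro rfl
      rw [ZMod.val_zero] at h
      omega
    have := key (-x) (-y) (by
      have : NeZero x := ⟨hx⟩
      have : NeZero y := ⟨hy⟩
      rw [ZMod.val_neg_of_ne_zero, ZMod.val_neg_of_ne_zero]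
      omega)
    rw [← neg_add, phi_neg hT, phi_neg hT, phi_neg hT] at this
    exact this

/-- Intervals have the smallest energy. -/
theorem phi_le_energy (hR : S_Riesz) (hT : IsThird M f) (hc : IsConc M f) :
    ∀ (k : ℕ) (h : ZMod M → ℕ), ∑ x, h x ≤ k → phi M f ((∑ x, h x : ℕ) : ZMod M)
      ≤ energy M f h h := by
  intro k
  induction k with
  | zero =>
    intro h hk
    have h0 : ∀ x, h x = 0 := fun x => by
      have := single_le_sum (f := h) (fun _ _ => Nat.zero_le _) (mem_univ x)
      omega
    have e : h = fun _ => 0 := funext h0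
    rw [e]
    unfold energy phi
    simp [hT.zero]
  | succ k ih =>
    intro h hk
    by_cases hz : ∀ x, h x = 0
    · have e : h = fun _ => 0 := funext hz
      rw [e]
      unfold energy phi
      simp [hT.zero]
    · push Not at hz
      obtain ⟨x0, hx0⟩ := hz
      set A : Finset (ZMod M) := univ.filter fun x => h x ≠ 0 with hA
      set h' : ZMod M → ℕ := fun x => h x - 1 with hh'
      set a : ZMod M → ℕ := fun x => if x ∈ A then 1 else 0 with ha
      have dec : h = fun x => a x + h' x := by
        funext x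
        simp only [ha, hh', hA, mem_filter, mem_univ, true_and]
        split_ifs with h1
        · omega
        · have : h x = 0 := not_not.1 h1
          omega
      have suma : ∑ x, a x = A.card := by
        simp only [ha]
        rw [sum_ite_mem, univ_inter, sum_const, smul_eq_mul, mul_one]
      have sumh : ∑ x, h x = A.card + ∑ x, h' x := by
        conv_lhs => rw [dec]
        rw [sum_add_distrib, suma]
      have posA : 0 < A.card := card_pos.2 ⟨x0, by rw [hA, mem_filter]; exact ⟨mem_univ _, hx0⟩⟩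
      have i1 := ih h' (by omega)
      have i2 := phi_le_cut hR hT A
      have i3 := phi_add_le hT hc (A.card : ZMod M) ((∑ x, h' x : ℕ) : ZMod M)
      have e1 : energy M f h h = energy M f a a + 2 * energy M f a h' + energy M f h' h' := by
        conv_lhs => rw [dec]
        rw [energy_add_left, energy_comm hT a, energy_comm hT h', energy_add_left,
          energy_add_left, energy_comm hT h' a]
        ring
      have e2 : energy M f a a = ∑ x ∈ A, ∑ y ∈ Aᶜ, ker M f (x - y) := by
        simp only [ha]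
        rw [energy_set, ← sum_subset (subset_univ A)]
        · refine sum_congr rfl fun y hy => ?_
          rw [if_pos hy, sum_ker_compl, Nat.cast_one, one_mul]
          congr 1
          refine sum_congr rfl fun x _ => ?_
          rw [← ker_neg hT, neg_sub]
        · intro y _ hy
          rw [if_neg hy, Nat.cast_zero, zero_mul]
      have e3 : 0 ≤ energy M f a h' := by
        simp only [ha]
        rw [energy_set]
        refine sum_nonneg fun y _ => ?_
        by_cases hy : y ∈ A
        · apply mul_nonneg (Nat.cast_nonneg _)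
          have : - ∑ x ∈ A, ker M f (x - y) = ∑ x ∈ Aᶜ, ker M f (y - x) := by
            rw [sum_ker_compl]
            congr 1
            refine sum_congr rfl fun x _ => ?_
            rw [← ker_neg hT, neg_sub]
          rw [this]
          refine sum_nonneg fun x hx => ker_nonneg hT hc ?_
          rw [mem_compl] at hx
          exact fun h0 => hx (sub_eq_zero.1 h0 ▸ hy)
        · have : h' y = 0 := by
            simp only [hh']
            simp only [hA, mem_filter, mem_univ, true_and, not_not] at hy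
            omega
          rw [this, Nat.cast_zero, zero_mul]
      rw [sumh, Nat.cast_add, e1, e2]
      linarith

end

end Pool.Agent.NH46.FW
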