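import Pool.Agent.NH37.AF.Deg
import Pool.Agent.NH46.FW.Circle
import Pool.Agent.NH46.FW.Riesz

set_option autoImplicit false

/-!
# The F-conjecture for divisors given by weights on a circle and third differences

Let the `n` marks have weights `w_i`, integers whose sum is divisible by `M`, and let `f` be an even
function on `ℤ / M` with `f 0 = 0`.  Then

  `D(f, w) = ∑ f (w_i) • ψ_i - ∑ f (w(S)) • δ_S`,   `w(S) = ∑_{i ∈ S} w_i`,

is a divisor on `M̄_{0,n}`.  (For `w_i = 2 ^ i`, `i < n`, and `M = 2 ^ n - 1` every divisor is of this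
form; for `w_i = 1`, `M = n = g` these are the pullbacks under the flag map of the divisors
`a λ - b₀ δ₀ - ∑ b_i δ_i` on `M̄_g`, with `b_i = f i`.)

Theorem.  Let `f` have nonnegative third differences on the first half of the circle:
`f (x + 2) - 3 f (x + 1) + 3 f x - f (x - 1) ≥ 0` for `1 ≤ x`, `2 (x + 1) ≤ M`.  Let `f` be concave on
`{0, …, M}` too, or let the `w_i` be nonnegative with the sum `M`.  Then `D(f, w)`, and all sums of
such divisors, with various `M`, `f`, `w`, are semiample over every field: for every point of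
`M̄_{0,n}` they are linearly equivalent to effective sums of boundary divisors that do not contain the
point.  In particular

* a divisor `a λ - b₀ δ₀ - ∑ b_i δ_i` on `M̄_g` with `b_(x+2) - 3 b_(x+1) + 3 b_x - b_(x-1) ≥ 0` for
  `1 ≤ x ≤ g / 2 - 1` (where `b_0 = 0` in this formula) is nef if it is F-nef;
* the theorem contains `K + Δ` (`f = 1` outside of `0`) and the divisors of conformal blocks of level
  one for `sl_M` (`f x = x (M - x)`).

Proof.  Let `κ` be half of the second difference of `f`, a function on `ℤ / M` with the sum zero,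
and let `E(h) = ∑ κ(x - y) h(x) h(y)`.  An arc of length `r` has `E = f r`.  Given a point of
`M̄_{0,n}`, i.e. a compatible family of boundary divisors, we list the marks such that these `S` are
intervals in the list, and wind consecutive arcs of the lengths `w_i` around the circle.  The
graph in which `i` and `j` are joined by an edge of weight `- 2 B(arc i, arc j)`, where `B` is the
bilinear form of `E`, has the degrees `f (w_i)` and the cuts `E(arcs of S)`.  If `S` is an interval
this is `f (w(S))`; and for all `S` it is at least `f (w(S))` by the rearrangement inequality of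
Riesz on the circle: the third differences say that `κ` increases with the distance from `0`, away
from `0`.  So `∑ (cut(S) - f (w(S))) δ_S` is an effective sum of boundary divisors which does not
contain the point, and it is linearly equivalent to `D(f, w)`.
-/

namespace Pool.Agent.Results.MP_23e236_ag.ThirdDifferences

open Finset Pool.Agent.NH46.FW Pool.Agent.NH37.FC

variable {n : ℕ}

/-- Linear equivalence: the difference is a combination, with coefficients `G i j = G j i`, of the
relations `∑ δ_S = ψ_i + ψ_j`, the sum over the `S` which contain `i` but not `j`. These generate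
all the relations between the `δ_S` and the `ψ_i`. -/
def LinEquiv (c u : Finset (Fin n) → ℝ) : Prop :=
  ∃ G : Fin n → Fin n → ℝ, (∀ i j, G i j = G j i) ∧ ∀ S, u S = c S + ∑ i ∈ S, ∑ j ∈ Sᶜ, G i j

/-- The boundary divisors `δ_S`, `S ∈ F`, of `M̄_{0,n}` have a common point if and only if this
holds. -/
def Compatible (F : Set (Finset (Fin n))) : Prop :=
  ∀ S ∈ F, ∀ T ∈ F, S ⊆ T ∨ T ⊆ S ∨ Disjoint S T ∨ S ∪ T = univ

/-- For every point of `M̄_{0,n}` the divisor is linearly equivalent to an effective sum of boundary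
divisors that do not contain the point. (`F` is the set of the boundary divisors through the
point.) -/
def IsSemiample (c : Finset (Fin n) → ℝ) : Prop :=
  ∀ F : Set (Finset (Fin n)), Compatible F →
    ∃ u : Finset (Fin n) → ℝ, IsDivisor u ∧ LinEquiv c u ∧ (∀ i, u {i} = 0) ∧ (∀ S, 0 ≤ u S) ∧
      ∀ S ∈ F, u S = 0

theorem semiample_of_graphs {d : Finset (Fin n) → ℝ} (h0 : d ∅ = 0) (hs : ∀ S, d Sᶜ = d S)
    (h : HasGraphs d) : IsSemiample (fun S => - d S) := by
  intro F hF
  obtain ⟨G, h1, h2, h3, h4⟩ := h F hF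
  refine ⟨fun S => cut G S - d S, ⟨?_, fun S => ?_⟩, ⟨G, h1, fun S => ?_⟩, fun i => ?_, fun S => ?_,
    fun S hS => ?_⟩
  · show cut G ∅ - d ∅ = 0
    rw [cut_empty, h0, sub_zero]
  · show cut G Sᶜ - d Sᶜ = cut G S - d S
    rw [cut_compl h1, hs]
  · show cut G S - d S = - d S + _
    rw [cut_eq]
    ring
  · show cut G {i} - d {i} = 0
    rw [h2, sub_self]
  · show 0 ≤ cut G S - d S
    exact sub_nonneg.2 (h3 S)
  · show cut G S - d S = 0
    rw [h4 S hS, sub_self]

theorem nef {c : Finset (Fin n) → ℝ} (hc : IsSemiample c) {r : ℕ} {B : Fin r → Finset (Fin n)}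
    {m : Finset (Fin r) → ℝ} {ψ : Fin r → ℝ} (hr : 4 ≤ r) (hB : IsPartition B)
    (hC : IsCurve m ψ) : 0 ≤ degree c B m ψ := by
  obtain ⟨u, -, ⟨G, hG, hu⟩, -, h0, h1⟩ := hc (Set.range B) (by
    rintro _ ⟨i, rfl⟩ _ ⟨j, rfl⟩
    by_cases hij : i = j
    · subst hij; exact Or.inl Subset.rfl
    · exact Or.inr (Or.inr (Or.inl (hB.2.1 i j hij))))
  have key : degree c B m ψ = (∑ S : Finset (Fin r), u (S.biUnion B) * m S) / 2 := by
    refine Pool.Agent.NH37.AF.degree_gauge (G := fun i j => ∑ x ∈ B i, ∑ y ∈ B j, G x y)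
      (v := fun S : Finset (Fin r) => u (S.biUnion B)) hC (by omega) ?_ ?_ ?_
    · intro i j
      rw [sum_comm]
      exact sum_congr rfl fun x _ => sum_congr rfl fun y _ => hG _ _
    · intro S
      show c (S.biUnion B) + Pool.Agent.NH37.AF.cut _ S = u (S.biUnion B)
      rw [hu]
      congr 1
      unfold Pool.Agent.NH37.AF.cut
      rw [← Pool.Agent.NH37.AF.biUnion_compl hB, sum_biUnion fun i _ j _ hij => hB.2.1 i j hij]
      refine sum_congr rfl fun i _ => ?_
      rw [sum_comm]
      refine sum_congr rfl fun x _ => ?_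
      rw [sum_biUnion fun i _ j _ hij => hB.2.1 i j hij]
    · intro i
      show u (({i} : Finset (Fin r)).biUnion B) = 0
      rw [singleton_biUnion]
      exact h1 _ ⟨i, rfl⟩
  rw [key]
  apply div_nonneg _ (by norm_num)
  exact sum_nonneg fun S _ => mul_nonneg (h0 _) (hC.1 S)

/-- **Semiample divisors from third differences.** Let `M_t ≥ 1`, let `f_t` be an even function
on `ℤ / M_t`, `f_t 0 = 0`, with nonnegative third differences on the first half, and let `w_t i` be
weights of the `n` marks, for finitely many `t`. For every `t` let either `f_t` be concave and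
`∑ w_t i` divisible by `M_t`, or `∑ w_t i = M_t`. Then the sum of the divisors
`∑ f_t (w_t i) • ψ_i - ∑ f_t (w_t(S)) • δ_S` is semiample and has nonnegative degree on all curves in
all strata. (`w_t(S)` is the sum of the weights of the marks in `S`, modulo `M_t`.)

In particular (`w = 1`, `n = M = g`), the pullback `flag g b` to `M̄_{0,g}` of a divisor
`a λ - b₀ δ₀ - ∑ b_i δ_i` on `M̄_g` is semiample, and nonnegative on all curves in all strata, if the
third differences of the `b_i` are nonnegative on the first half. -/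
theorem result :
    (∀ (n : ℕ) (ι : Type) [Fintype ι] (M : ι → ℕ) (f : ι → ℕ → ℝ) (w : ι → Fin n → ℕ),
      (∀ t, 1 ≤ M t) → (∀ t, IsThird (M t) (f t)) →
      (∀ t, (IsConc (M t) (f t) ∧ M t ∣ ∑ i, w t i) ∨ ∑ i, w t i = M t) →
        IsSemiample (fun S : Finset (Fin n) => - ∑ t, f t ((∑ i ∈ S, w t i) % M t)) ∧
        ∀ (r : ℕ) (B : Fin r → Finset (Fin n)) (m : Finset (Fin r) → ℝ) (ψ : Fin r → ℝ), 4 ≤ r →
          IsPartition B → IsCurve m ψ →
            0 ≤ degree (fun S : Finset (Fin n) => - ∑ t, f t ((∑ i ∈ S, w t i) % M t)) B m ψ) ∧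
    ∀ (g : ℕ) (b : ℕ → ℝ), 1 ≤ g → IsThird g b →
      IsSemiample (flag g b) ∧
      ∀ (r : ℕ) (B : Fin r → Finset (Fin g)) (m : Finset (Fin r) → ℝ) (ψ : Fin r → ℝ), 4 ≤ r →
        IsPartition B → IsCurve m ψ → 0 ≤ degree (flag g b) B m ψ := by
  have main : ∀ (n : ℕ) (ι : Type) [Fintype ι] (M : ι → ℕ) (f : ι → ℕ → ℝ) (w : ι → Fin n → ℕ),
      (∀ t, 1 ≤ M t) → (∀ t, IsThird (M t) (f t)) →
      (∀ t, (IsConc (M t) (f t) ∧ M t ∣ ∑ i, w t i) ∨ ∑ i, w t i = M t) →
        IsSemiample (fun S : Finset (Fin n) => - ∑ t, f t ((∑ i ∈ S, w t i) % M t)) := by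
    intro n ι _ M f w hM hT hw
    refine semiample_of_graphs (d := fun S => ∑ t, f t ((∑ i ∈ S, w t i) % M t)) ?_ ?_
      (HasGraphs.sum (d := fun t S => f t ((∑ i ∈ S, w t i) % M t)) fun t => ?_)
    · refine sum_eq_zero fun t _ => ?_
      rw [sum_empty, Nat.zero_mod, (hT t).zero]
    · intro S
      refine sum_congr rfl fun t _ => ?_
      have hdiv : M t ∣ ∑ i, w t i := by
        rcases hw t with h | h
        · exact h.2
        · rw [h]
      have h1 : (∑ i ∈ Sᶜ, w t i + ∑ i ∈ S, w t i) % M t = 0 := by
        rw [sum_compl_add_sum]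
        exact Nat.mod_eq_zero_of_dvd hdiv
      have hlt := Nat.mod_lt (∑ i ∈ S, w t i) (hM t)
      have hlt' := Nat.mod_lt (∑ i ∈ Sᶜ, w t i) (hM t)
      rw [Nat.add_mod] at h1
      by_cases h2 : (∑ i ∈ S, w t i) % M t = 0
      · rw [h2, add_zero, Nat.mod_mod] at h1
        rw [h1, h2]
      · have h3 : (∑ i ∈ Sᶜ, w t i) % M t = M t - (∑ i ∈ S, w t i) % M t := by
          obtain ⟨k, hk⟩ := Nat.dvd_of_mod_eq_zero h1
          have hk1 : k < 2 := by
            by_contra hcon
            have : M t * 2 ≤ M t * k := Nat.mul_le_mul_left _ (by omega)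
            omega
          have hk0 : k ≠ 0 := by
            rintro rfl
            omega
          have : k = 1 := by omega
          rw [this, mul_one] at hk
          omega
        rw [h3, (hT t).symm _ hlt.le]
    · rcases hw t with h | h
      · exact circle_conc riesz (hM t) (hT t) h.1 _ h.2
      · exact circle_one riesz (hM t) (hT t) _ h
  refine ⟨fun n ι _ M f w hM hT hw => ⟨main n ι M f w hM hT hw, fun r B m ψ hr hB hC =>
    nef (main n ι M f w hM hT hw) hr hB hC⟩, ?_⟩
  intro g b hg hb
  have h1 := main g Unit (fun _ => g) (fun _ => b) (fun _ _ => 1) (fun _ => hg) (fun _ => hb)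
    (fun _ => Or.inr (by simp))
  have e : (fun S : Finset (Fin g) => - ∑ _t : Unit, b ((∑ i ∈ S, 1) % g)) = flag g b := by
    funext S
    unfold flag
    simp only [univ_unique, sum_const, card_singleton, one_smul, smul_eq_mul, mul_one]
    have hS : S.card ≤ g := by
      have := card_le_univ S
      rwa [Fintype.card_fin] at this
    rcases Nat.lt_or_ge S.card g with h | h
    · rw [Nat.mod_eq_of_lt h]
    · have h2 : S.card = g := le_antisymm hS h
      have h3 := hb.symm g le_rfl
      rw [Nat.sub_self] at h3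
      rw [h2, Nat.mod_self, h3]
  rw [e] at h1
  exact ⟨h1, fun r B m ψ hr hB hC => nef h1 hr hB hC⟩

end Pool.Agent.Results.MP_23e236_ag.ThirdDifferences
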